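import Pool.Agent.H98.HL.NB
import Pool.Agent.H98.HL.N.T33
import Pool.Agent.H98.HL.N.T34
import Pool.Agent.H98.HL.N.T35
import Pool.Agent.H98.HL.N.T36
import Pool.Agent.H98.HL.N.T37
import Pool.Agent.H98.HL.N.T38
import Pool.Agent.H98.HL.N.T39
import Pool.Agent.H98.HL.N.T40
import Pool.Agent.H98.HL.N.T41
import Pool.Agent.H98.HL.N.T42

/-!
# Tall rectangles: cells which are not of type F (generated)
-/

namespace Pool.Agent.H98.HL

open Pool.Agent.H78.RT
open Pool.Agent.H78.Tie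
open Pool.Agent.H78.Tie.TAp
open Pool.Agent.H81.AP (LF add smul dot dot_nil dot_nil' dot_cons dot_add dot_smul AllNn AllNe)
open Pool.Agent.H23.DT (AllNn.append)
open Pool.Agent.H78.SV (ST env rT rP sgv bT)
open Pool.Agent.H78.HL (TL OV FT Win)

variable {A : TAp} {T : A.Tie}

theorem cm000 {sp xp : Bool} (h : TL T) (d : ST A T (sgv xp)) (hb : Big A) (hsg : A.sg = sgv sp)
    (hep : T.ep = sgv false) {n U S : ℤ} (hc : IsC A n U S (th A n))
    (hF : Fct A T n U S (fN xp false false ++ (fF false false ++ (fR 0 ++ [])))) : False := by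
  cases sp <;> cases xp
  · obtain ⟨k, hk, hS'⟩ := jH h
    exact goR d hb hsg hep hc hF hk hS' (g := cmmm00r5_g) (by decide +kernel) cmmm00r5_k
  · obtain ⟨k, hk, hS'⟩ := jH h
    exact goR d hb hsg hep hc hF hk hS' (g := cmmp00r5_g) (by decide +kernel) cmmp00r5_k
  · obtain ⟨k, hk, hS'⟩ := jH h
    exact goR d hb hsg hep hc hF hk hS' (g := cpmm00r5_g) (by decide +kernel) cpmm00r5_k
  · obtain ⟨k, hk, hS'⟩ := jH h
    exact goR d hb hsg hep hc hF hk hS' (g := cpmp00r5_g) (by decide +kernel) cpmp00r5_k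

theorem cm001 {sp xp : Bool} (h : TL T) (d : ST A T (sgv xp)) (hb : Big A) (hsg : A.sg = sgv sp)
    (hep : T.ep = sgv false) {n U S : ℤ} (hc : IsC A n U S (th A n))
    (hF : Fct A T n U S (fN xp false false ++ (fF false false ++ (fR 1 ++ [])))) : False := by
  cases sp <;> cases xp
  · obtain ⟨k, hk, hS'⟩ := jH h
    exact goR d hb hsg hep hc hF hk hS' (g := cmmm00r41_g) (by decide +kernel) cmmm00r41_k
  · obtain ⟨k, hk, hS'⟩ := jH h
    exact goR d hb hsg hep hc hF hk hS' (g := cmmp00r41_g) (by decide +kernel) cmmp00r41_k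
  · obtain ⟨k, hk, hS'⟩ := jH h
    exact goR d hb hsg hep hc hF hk hS' (g := cpmm00r41_g) (by decide +kernel) cpmm00r41_k
  · obtain ⟨k, hk, hS'⟩ := jH h
    exact goR d hb hsg hep hc hF hk hS' (g := cpmp00r41_g) (by decide +kernel) cpmp00r41_k

theorem cm002 {sp xp : Bool} (h : TL T) (d : ST A T (sgv xp)) (hb : Big A) (hsg : A.sg = sgv sp)
    (hep : T.ep = sgv false) {n U S : ℤ} (hc : IsC A n U S (th A n))
    (hF : Fct A T n U S (fN xp false false ++ (fF false false ++ (fR 2 ++ [])))) : False := by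
  cases sp <;> cases xp
  · obtain ⟨k, hk, hS'⟩ := jHW h
    exact goR d hb hsg hep hc hF hk hS' (g := cmmm00r73wR01m1_g) (by decide +kernel) cmmm00r73wR01m1_k
  · obtain ⟨k, hk, hS'⟩ := jH h
    exact goR d hb hsg hep hc hF hk hS' (g := cmmp00r73_g) (by decide +kernel) cmmp00r73_k
  · obtain ⟨k, hk, hS'⟩ := jqH h
    exact goR d hb hsg hep hc hF hk hS' (g := cpmm00r73wR11_g) (by decide +kernel) cpmm00r73wR11_k
  · obtain ⟨k, hk, hS'⟩ := jH h
    exact goR d hb hsg hep hc hF hk hS' (g := cpmp00r73_g) (by decide +kernel) cpmp00r73_k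

theorem cm003 {sp xp : Bool} (h : TL T) (d : ST A T (sgv xp)) (hb : Big A) (hsg : A.sg = sgv sp)
    (hep : T.ep = sgv false) {n U S : ℤ} (hc : IsC A n U S (th A n))
    (hF : Fct A T n U S (fN xp false false ++ (fF false false ++ (fR 3 ++ [])))) : False := by
  cases sp <;> cases xp
  · obtain ⟨k, hk, hS'⟩ := jH h
    exact goR d hb hsg hep hc hF hk hS' (g := cmmm00r49_g) (by decide +kernel) cmmm00r49_k
  · obtain ⟨k, hk, hS'⟩ := jH h
    exact goR d hb hsg hep hc hF hk hS' (g := cmmp00r49_g) (by decide +kernel) cmmp00r49_k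
  · obtain ⟨k, hk, hS'⟩ := jH h
    exact goR d hb hsg hep hc hF hk hS' (g := cpmm00r49_g) (by decide +kernel) cpmm00r49_k
  · obtain ⟨k, hk, hS'⟩ := jH h
    exact goR d hb hsg hep hc hF hk hS' (g := cpmp00r49_g) (by decide +kernel) cpmp00r49_k

theorem cm004 {sp xp : Bool} (h : TL T) (d : ST A T (sgv xp)) (hb : Big A) (hsg : A.sg = sgv sp)
    (hep : T.ep = sgv false) {n U S : ℤ} (hc : IsC A n U S (th A n))
    (hF : Fct A T n U S (fN xp false false ++ (fF false false ++ (fR 4 ++ [])))) : False := by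
  cases sp <;> cases xp
  · obtain ⟨k, hk, hS'⟩ := jHW h
    exact goR d hb hsg hep hc hF hk hS' (g := cmmm00r81wR01m1_g) (by decide +kernel) cmmm00r81wR01m1_k
  · obtain ⟨k, hk, hS'⟩ := jH h
    exact goR d hb hsg hep hc hF hk hS' (g := cmmp00r81_g) (by decide +kernel) cmmp00r81_k
  · obtain ⟨k, hk, hS'⟩ := jHW h
    exact goR d hb hsg hep hc hF hk hS' (g := cpmm00r81wR01m1_g) (by decide +kernel) cpmm00r81wR01m1_k
  · obtain ⟨k, hk, hS'⟩ := jH h
    exact goR d hb hsg hep hc hF hk hS' (g := cpmp00r81_g) (by decide +kernel) cpmp00r81_k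

theorem cm010 {sp xp : Bool} (h : TL T) (d : ST A T (sgv xp)) (hb : Big A) (hsg : A.sg = sgv sp)
    (hep : T.ep = sgv false) {n U S : ℤ} (hc : IsC A n U S (th A n))
    (hF : Fct A T n U S (fN xp false false ++ (fF false true ++ (fR 0 ++ [])))) : False := by
  cases sp <;> cases xp
  · obtain ⟨k, hk, hS'⟩ := jq h
    exact goR d hb hsg hep hc hF hk hS' (g := cmmm01r5wR1_g) (by decide +kernel) cmmm01r5wR1_k
  · obtain ⟨k, hk, hS'⟩ := jH h
    exact goR d hb hsg hep hc hF hk hS' (g := cmmp01r5_g) (by decide +kernel) cmmp01r5_k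
  · obtain ⟨k, hk, hS'⟩ := jq h
    exact goR d hb hsg hep hc hF hk hS' (g := cpmm01r5wR1_g) (by decide +kernel) cpmm01r5wR1_k
  · obtain ⟨k, hk, hS'⟩ := jH h
    exact goR d hb hsg hep hc hF hk hS' (g := cpmp01r5_g) (by decide +kernel) cpmp01r5_k

theorem cm011 {sp xp : Bool} (h : TL T) (d : ST A T (sgv xp)) (hb : Big A) (hsg : A.sg = sgv sp)
    (hep : T.ep = sgv false) {n U S : ℤ} (hc : IsC A n U S (th A n))
    (hF : Fct A T n U S (fN xp false false ++ (fF false true ++ (fR 1 ++ [])))) : False := by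
  cases sp <;> cases xp
  · obtain ⟨k, hk, hS'⟩ := jH h
    exact goR d hb hsg hep hc hF hk hS' (g := cmmm01r41_g) (by decide +kernel) cmmm01r41_k
  · obtain ⟨k, hk, hS'⟩ := jH h
    exact goR d hb hsg hep hc hF hk hS' (g := cmmp01r41_g) (by decide +kernel) cmmp01r41_k
  · obtain ⟨k, hk, hS'⟩ := jH h
    exact goR d hb hsg hep hc hF hk hS' (g := cpmm01r41_g) (by decide +kernel) cpmm01r41_k
  · obtain ⟨k, hk, hS'⟩ := jH h
    exact goR d hb hsg hep hc hF hk hS' (g := cpmp01r41_g) (by decide +kernel) cpmp01r41_k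

theorem cm012 {sp xp : Bool} (h : TL T) (d : ST A T (sgv xp)) (hb : Big A) (hsg : A.sg = sgv sp)
    (hep : T.ep = sgv false) {n U S : ℤ} (hc : IsC A n U S (th A n))
    (hF : Fct A T n U S (fN xp false false ++ (fF false true ++ (fR 2 ++ [])))) : False := by
  cases sp <;> cases xp
  · obtain ⟨k, hk, hS'⟩ := jH h
    exact goR d hb hsg hep hc hF hk hS' (g := cmmm01r73_g) (by decide +kernel) cmmm01r73_k
  · obtain ⟨k, hk, hS'⟩ := jH h
    exact goR d hb hsg hep hc hF hk hS' (g := cmmp01r73_g) (by decide +kernel) cmmp01r73_k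
  · obtain ⟨k, hk, hS'⟩ := jH h
    exact goR d hb hsg hep hc hF hk hS' (g := cpmm01r73_g) (by decide +kernel) cpmm01r73_k
  · obtain ⟨k, hk, hS'⟩ := jH h
    exact goR d hb hsg hep hc hF hk hS' (g := cpmp01r73_g) (by decide +kernel) cpmp01r73_k

end Pool.Agent.H98.HL
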