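import Pool.Agent.H98.HL.NB
import Pool.Agent.H98.HL.N.T42
import Pool.Agent.H98.HL.N.T43
import Pool.Agent.H98.HL.N.T44
import Pool.Agent.H98.HL.N.T45
import Pool.Agent.H98.HL.N.T46
import Pool.Agent.H98.HL.N.T47
import Pool.Agent.H98.HL.N.T48
import Pool.Agent.H98.HL.N.T49
import Pool.Agent.H98.HL.N.T50
import Pool.Agent.H98.HL.N.T51
import Pool.Agent.H98.HL.N.T52

/-!
# Tall rectangles: cells which are not of type F (generated)
-/

namespace Pool.Agent.H98.HL

open Pool.Agent.H78.RT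
open Pool.Agent.H78.Tie
open Pool.Agent.H78.Tie.TAp
open Pool.Agent.H81.AP (LF add smul dot dot_nil dot_nil' dot_cons dot_add dot_smul AllNn AllNe)
open Pool.Agent.H23.DT (AllNn.append)
open Pool.Agent.H78.SV (ST env rT rP sgv bT)
open Pool.Agent.H78.HL (TL OV FT Win)

variable {A : TAp} {T : A.Tie}

theorem cm100 {sp xp : Bool} (h : TL T) (d : ST A T (sgv xp)) (hb : Big A) (hsg : A.sg = sgv sp)
    (hep : T.ep = sgv false) {n U S : ℤ} (hc : IsC A n U S (th A n))
    (hF : Fct A T n U S (fN xp true false ++ (fF true false ++ (fR 0 ++ [])))) : False := by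
  cases sp <;> cases xp
  · obtain ⟨k, hk, hS'⟩ := jH h
    exact goR d hb hsg hep hc hF hk hS' (g := cmmm10r5_g) (by decide +kernel) cmmm10r5_k
  · obtain ⟨k, hk, hS'⟩ := jH h
    exact goR d hb hsg hep hc hF hk hS' (g := cmmp10r5_g) (by decide +kernel) cmmp10r5_k
  · obtain ⟨k, hk, hS'⟩ := jH h
    exact goR d hb hsg hep hc hF hk hS' (g := cpmm10r5_g) (by decide +kernel) cpmm10r5_k
  · obtain ⟨k, hk, hS'⟩ := jH h
    exact goR d hb hsg hep hc hF hk hS' (g := cpmp10r5_g) (by decide +kernel) cpmp10r5_k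

theorem cm101 {sp xp : Bool} (h : TL T) (d : ST A T (sgv xp)) (hb : Big A) (hsg : A.sg = sgv sp)
    (hep : T.ep = sgv false) {n U S : ℤ} (hc : IsC A n U S (th A n))
    (hF : Fct A T n U S (fN xp true false ++ (fF true false ++ (fR 1 ++ [])))) : False := by
  cases sp <;> cases xp
  · obtain ⟨k, hk, hS'⟩ := jH h
    exact goR d hb hsg hep hc hF hk hS' (g := cmmm10r41_g) (by decide +kernel) cmmm10r41_k
  · obtain ⟨k, hk, hS'⟩ := jH h
    exact goR d hb hsg hep hc hF hk hS' (g := cmmp10r41_g) (by decide +kernel) cmmp10r41_k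
  · obtain ⟨k, hk, hS'⟩ := jH h
    exact goR d hb hsg hep hc hF hk hS' (g := cpmm10r41_g) (by decide +kernel) cpmm10r41_k
  · obtain ⟨k, hk, hS'⟩ := jH h
    exact goR d hb hsg hep hc hF hk hS' (g := cpmp10r41_g) (by decide +kernel) cpmp10r41_k

theorem cm102 {sp xp : Bool} (h : TL T) (d : ST A T (sgv xp)) (hb : Big A) (hsg : A.sg = sgv sp)
    (hep : T.ep = sgv false) {n U S : ℤ} (hc : IsC A n U S (th A n))
    (hF : Fct A T n U S (fN xp true false ++ (fF true false ++ (fR 2 ++ [])))) : False := by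
  cases sp <;> cases xp
  · obtain ⟨k, hk, hS'⟩ := jH h
    exact goR d hb hsg hep hc hF hk hS' (g := cmmm10r73wR01_g) (by decide +kernel) cmmm10r73wR01_k
  · obtain ⟨k, hk, hS'⟩ := jH h
    exact goR d hb hsg hep hc hF hk hS' (g := cmmp10r73_g) (by decide +kernel) cmmp10r73_k
  · obtain ⟨k, hk, hS'⟩ := jHW h
    exact goR d hb hsg hep hc hF hk hS' (g := cpmm10r73wR01m1_g) (by decide +kernel) cpmm10r73wR01m1_k
  · obtain ⟨k, hk, hS'⟩ := jH h
    exact goR d hb hsg hep hc hF hk hS' (g := cpmp10r73_g) (by decide +kernel) cpmp10r73_k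

theorem cm103 {sp xp : Bool} (h : TL T) (d : ST A T (sgv xp)) (hb : Big A) (hsg : A.sg = sgv sp)
    (hep : T.ep = sgv false) {n U S : ℤ} (hc : IsC A n U S (th A n))
    (hF : Fct A T n U S (fN xp true false ++ (fF true false ++ (fR 3 ++ [])))) : False := by
  cases sp <;> cases xp
  · obtain ⟨k, hk, hS'⟩ := jH h
    exact goR d hb hsg hep hc hF hk hS' (g := cmmm10r49_g) (by decide +kernel) cmmm10r49_k
  · obtain ⟨k, hk, hS'⟩ := jH h
    exact goR d hb hsg hep hc hF hk hS' (g := cmmp10r49_g) (by decide +kernel) cmmp10r49_k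
  · obtain ⟨k, hk, hS'⟩ := jH h
    exact goR d hb hsg hep hc hF hk hS' (g := cpmm10r49_g) (by decide +kernel) cpmm10r49_k
  · obtain ⟨k, hk, hS'⟩ := jH h
    exact goR d hb hsg hep hc hF hk hS' (g := cpmp10r49_g) (by decide +kernel) cpmp10r49_k

theorem cm104 {sp xp : Bool} (h : TL T) (d : ST A T (sgv xp)) (hb : Big A) (hsg : A.sg = sgv sp)
    (hep : T.ep = sgv false) {n U S : ℤ} (hc : IsC A n U S (th A n))
    (hF : Fct A T n U S (fN xp true false ++ (fF true false ++ (fR 4 ++ [])))) : False := by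
  cases sp <;> cases xp
  · obtain ⟨k, hk, hS'⟩ := jqH h
    exact goR d hb hsg hep hc hF hk hS' (g := cmmm10r81wR11_g) (by decide +kernel) cmmm10r81wR11_k
  · obtain ⟨k, hk, hS'⟩ := jH h
    exact goR d hb hsg hep hc hF hk hS' (g := cmmp10r81_g) (by decide +kernel) cmmp10r81_k
  · obtain ⟨k, hk, hS'⟩ := jH h
    exact goR d hb hsg hep hc hF hk hS' (g := cpmm10r81_g) (by decide +kernel) cpmm10r81_k
  · obtain ⟨k, hk, hS'⟩ := jH h
    exact goR d hb hsg hep hc hF hk hS' (g := cpmp10r81_g) (by decide +kernel) cpmp10r81_k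

theorem cm110 {sp xp : Bool} (h : TL T) (d : ST A T (sgv xp)) (hb : Big A) (hsg : A.sg = sgv sp)
    (hep : T.ep = sgv false) {n U S : ℤ} (hc : IsC A n U S (th A n))
    (hF : Fct A T n U S (fN xp true false ++ (fF true true ++ (fR 0 ++ [])))) : False := by
  cases sp <;> cases xp
  · obtain ⟨k, hk, hS'⟩ := jH h
    exact goR d hb hsg hep hc hF hk hS' (g := cmmm11r5_g) (by decide +kernel) cmmm11r5_k
  · obtain ⟨k, hk, hS'⟩ := jH h
    exact goR d hb hsg hep hc hF hk hS' (g := cmmp11r5_g) (by decide +kernel) cmmp11r5_k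
  · obtain ⟨k, hk, hS'⟩ := jH h
    exact goR d hb hsg hep hc hF hk hS' (g := cpmm11r5_g) (by decide +kernel) cpmm11r5_k
  · obtain ⟨k, hk, hS'⟩ := jH h
    exact goR d hb hsg hep hc hF hk hS' (g := cpmp11r5_g) (by decide +kernel) cpmp11r5_k

theorem cm111 {sp xp : Bool} (h : TL T) (d : ST A T (sgv xp)) (hb : Big A) (hsg : A.sg = sgv sp)
    (hep : T.ep = sgv false) {n U S : ℤ} (hc : IsC A n U S (th A n))
    (hF : Fct A T n U S (fN xp true false ++ (fF true true ++ (fR 1 ++ [])))) : False := by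
  cases sp <;> cases xp
  · obtain ⟨k, hk, hS'⟩ := jH h
    exact goR d hb hsg hep hc hF hk hS' (g := cmmm11r41_g) (by decide +kernel) cmmm11r41_k
  · obtain ⟨k, hk, hS'⟩ := jH h
    exact goR d hb hsg hep hc hF hk hS' (g := cmmp11r41_g) (by decide +kernel) cmmp11r41_k
  · obtain ⟨k, hk, hS'⟩ := jH h
    exact goR d hb hsg hep hc hF hk hS' (g := cpmm11r41_g) (by decide +kernel) cpmm11r41_k
  · obtain ⟨k, hk, hS'⟩ := jH h
    exact goR d hb hsg hep hc hF hk hS' (g := cpmp11r41_g) (by decide +kernel) cpmp11r41_k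

theorem cm112 {sp xp : Bool} (h : TL T) (d : ST A T (sgv xp)) (hb : Big A) (hsg : A.sg = sgv sp)
    (hep : T.ep = sgv false) {n U S : ℤ} (hc : IsC A n U S (th A n))
    (hF : Fct A T n U S (fN xp true false ++ (fF true true ++ (fR 2 ++ [])))) : False := by
  cases sp <;> cases xp
  · obtain ⟨k, hk, hS'⟩ := jH h
    exact goR d hb hsg hep hc hF hk hS' (g := cmmm11r73_g) (by decide +kernel) cmmm11r73_k
  · obtain ⟨k, hk, hS'⟩ := jH h
    exact goR d hb hsg hep hc hF hk hS' (g := cmmp11r73_g) (by decide +kernel) cmmp11r73_k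
  · obtain ⟨k, hk, hS'⟩ := jH h
    exact goR d hb hsg hep hc hF hk hS' (g := cpmm11r73_g) (by decide +kernel) cpmm11r73_k
  · obtain ⟨k, hk, hS'⟩ := jH h
    exact goR d hb hsg hep hc hF hk hS' (g := cpmp11r73_g) (by decide +kernel) cpmp11r73_k

end Pool.Agent.H98.HL
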