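import Pool.Agent.H98.HL.NB
import Pool.Agent.H98.HL.N.T52
import Pool.Agent.H98.HL.N.T53
import Pool.Agent.H98.HL.N.T54
import Pool.Agent.H98.HL.N.T55
import Pool.Agent.H98.HL.N.T56
import Pool.Agent.H98.HL.N.T57
import Pool.Agent.H98.HL.N.T58

/-!
# Tall rectangles: cells which are not of type F (generated)
-/

namespace Pool.Agent.H98.HL

open Pool.Agent.H78.RT
open Pool.Agent.H78.Tie
open Pool.Agent.H78.Tie.TAp
open Pool.Agent.H81.AP (LF add smul dot dot_nil dot_nil' dot_cons dot_add dot_smul AllNn AllNe)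
open Pool.Agent.H23.DT (AllNn.append)
open Pool.Agent.H78.SV (ST env rT rP sgv bT)
open Pool.Agent.H78.HL (TL OV FT Win)

variable {A : TAp} {T : A.Tie}

theorem cm200 {sp xp : Bool} (h : TL T) (d : ST A T (sgv xp)) (hb : Big A) (hsg : A.sg = sgv sp)
    (hep : T.ep = sgv false) {n U S : ℤ} (hc : IsC A n U S (th A n))
    (hF : Fct A T n U S (fN xp false true ++ (fF false false ++ (fR 0 ++ [])))) : False := by
  cases sp <;> cases xp
  · obtain ⟨k, hk, hS'⟩ := jH h
    exact goR d hb hsg hep hc hF hk hS' (g := cmmm20r5_g) (by decide +kernel) cmmm20r5_k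
  · obtain ⟨k, hk, hS'⟩ := jH h
    exact goR d hb hsg hep hc hF hk hS' (g := cmmp20r5_g) (by decide +kernel) cmmp20r5_k
  · obtain ⟨k, hk, hS'⟩ := jH h
    exact goR d hb hsg hep hc hF hk hS' (g := cpmm20r5_g) (by decide +kernel) cpmm20r5_k
  · obtain ⟨k, hk, hS'⟩ := jH h
    exact goR d hb hsg hep hc hF hk hS' (g := cpmp20r5_g) (by decide +kernel) cpmp20r5_k

theorem cm201 {sp xp : Bool} (h : TL T) (d : ST A T (sgv xp)) (hb : Big A) (hsg : A.sg = sgv sp)
    (hep : T.ep = sgv false) {n U S : ℤ} (hc : IsC A n U S (th A n))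
    (hF : Fct A T n U S (fN xp false true ++ (fF false false ++ (fR 1 ++ [])))) : False := by
  cases sp <;> cases xp
  · obtain ⟨k, hk, hS'⟩ := jH h
    exact goR d hb hsg hep hc hF hk hS' (g := cmmm20r41_g) (by decide +kernel) cmmm20r41_k
  · obtain ⟨k, hk, hS'⟩ := jH h
    exact goR d hb hsg hep hc hF hk hS' (g := cmmp20r41_g) (by decide +kernel) cmmp20r41_k
  · obtain ⟨k, hk, hS'⟩ := jH h
    exact goR d hb hsg hep hc hF hk hS' (g := cpmm20r41_g) (by decide +kernel) cpmm20r41_k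
  · obtain ⟨k, hk, hS'⟩ := jH h
    exact goR d hb hsg hep hc hF hk hS' (g := cpmp20r41_g) (by decide +kernel) cpmp20r41_k

theorem cm202 {sp xp : Bool} (h : TL T) (d : ST A T (sgv xp)) (hb : Big A) (hsg : A.sg = sgv sp)
    (hep : T.ep = sgv false) {n U S : ℤ} (hc : IsC A n U S (th A n))
    (hF : Fct A T n U S (fN xp false true ++ (fF false false ++ (fR 2 ++ [])))) : False := by
  cases sp <;> cases xp
  · obtain ⟨k, hk, hS'⟩ := jHW h
    exact goR d hb hsg hep hc hF hk hS' (g := cmmm20r73wR01m1_g) (by decide +kernel) cmmm20r73wR01m1_k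
  · obtain ⟨k, hk, hS'⟩ := jH h
    exact goR d hb hsg hep hc hF hk hS' (g := cmmp20r73_g) (by decide +kernel) cmmp20r73_k
  · obtain ⟨k, hk, hS'⟩ := jHW h
    exact goR d hb hsg hep hc hF hk hS' (g := cpmm20r73wR01m1_g) (by decide +kernel) cpmm20r73wR01m1_k
  · obtain ⟨k, hk, hS'⟩ := jH h
    exact goR d hb hsg hep hc hF hk hS' (g := cpmp20r73_g) (by decide +kernel) cpmp20r73_k

theorem cm203 {sp xp : Bool} (h : TL T) (d : ST A T (sgv xp)) (hb : Big A) (hsg : A.sg = sgv sp)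
    (hep : T.ep = sgv false) {n U S : ℤ} (hc : IsC A n U S (th A n))
    (hF : Fct A T n U S (fN xp false true ++ (fF false false ++ (fR 3 ++ [])))) : False := by
  cases sp <;> cases xp
  · obtain ⟨k, hk, hS'⟩ := jH h
    exact goR d hb hsg hep hc hF hk hS' (g := cmmm20r49_g) (by decide +kernel) cmmm20r49_k
  · obtain ⟨k, hk, hS'⟩ := jH h
    exact goR d hb hsg hep hc hF hk hS' (g := cmmp20r49_g) (by decide +kernel) cmmp20r49_k
  · obtain ⟨k, hk, hS'⟩ := jH h
    exact goR d hb hsg hep hc hF hk hS' (g := cpmm20r49_g) (by decide +kernel) cpmm20r49_k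
  · obtain ⟨k, hk, hS'⟩ := jH h
    exact goR d hb hsg hep hc hF hk hS' (g := cpmp20r49_g) (by decide +kernel) cpmp20r49_k

theorem cm204 {sp xp : Bool} (h : TL T) (d : ST A T (sgv xp)) (hb : Big A) (hsg : A.sg = sgv sp)
    (hep : T.ep = sgv false) {n U S : ℤ} (hc : IsC A n U S (th A n))
    (hF : Fct A T n U S (fN xp false true ++ (fF false false ++ (fR 4 ++ [])))) : False := by
  cases sp <;> cases xp
  · obtain ⟨k, hk, hS'⟩ := jH h
    exact goR d hb hsg hep hc hF hk hS' (g := cmmm20r81_g) (by decide +kernel) cmmm20r81_k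
  · obtain ⟨k, hk, hS'⟩ := jH h
    exact goR d hb hsg hep hc hF hk hS' (g := cmmp20r81_g) (by decide +kernel) cmmp20r81_k
  · obtain ⟨k, hk, hS'⟩ := jH h
    exact goR d hb hsg hep hc hF hk hS' (g := cpmm20r81_g) (by decide +kernel) cpmm20r81_k
  · obtain ⟨k, hk, hS'⟩ := jH h
    exact goR d hb hsg hep hc hF hk hS' (g := cpmp20r81_g) (by decide +kernel) cpmp20r81_k

theorem cm210 {sp xp : Bool} (h : TL T) (d : ST A T (sgv xp)) (hb : Big A) (hsg : A.sg = sgv sp)
    (hep : T.ep = sgv false) {n U S : ℤ} (hc : IsC A n U S (th A n))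
    (hF : Fct A T n U S (fN xp false true ++ (fF false true ++ (fR 0 ++ [])))) : False := by
  cases sp <;> cases xp
  · obtain ⟨k, hk, hS'⟩ := jq h
    exact goR d hb hsg hep hc hF hk hS' (g := cmmm21r5wR1_g) (by decide +kernel) cmmm21r5wR1_k
  · obtain ⟨k, hk, hS'⟩ := jH h
    exact goR d hb hsg hep hc hF hk hS' (g := cmmp21r5_g) (by decide +kernel) cmmp21r5_k
  · obtain ⟨k, hk, hS'⟩ := jq h
    exact goR d hb hsg hep hc hF hk hS' (g := cpmm21r5wR1_g) (by decide +kernel) cpmm21r5wR1_k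
  · obtain ⟨k, hk, hS'⟩ := jH h
    exact goR d hb hsg hep hc hF hk hS' (g := cpmp21r5_g) (by decide +kernel) cpmp21r5_k

theorem cm211 {sp xp : Bool} (h : TL T) (d : ST A T (sgv xp)) (hb : Big A) (hsg : A.sg = sgv sp)
    (hep : T.ep = sgv false) {n U S : ℤ} (hc : IsC A n U S (th A n))
    (hF : Fct A T n U S (fN xp false true ++ (fF false true ++ (fR 1 ++ [])))) : False := by
  cases sp <;> cases xp
  · obtain ⟨k, hk, hS'⟩ := jq h
    exact goR d hb hsg hep hc hF hk hS' (g := cmmm21r41wR1_g) (by decide +kernel) cmmm21r41wR1_k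
  · obtain ⟨k, hk, hS'⟩ := jH h
    exact goR d hb hsg hep hc hF hk hS' (g := cmmp21r41_g) (by decide +kernel) cmmp21r41_k
  · obtain ⟨k, hk, hS'⟩ := jq h
    exact goR d hb hsg hep hc hF hk hS' (g := cpmm21r41wR1_g) (by decide +kernel) cpmm21r41wR1_k
  · obtain ⟨k, hk, hS'⟩ := jH h
    exact goR d hb hsg hep hc hF hk hS' (g := cpmp21r41_g) (by decide +kernel) cpmp21r41_k

theorem cm212 {sp xp : Bool} (h : TL T) (d : ST A T (sgv xp)) (hb : Big A) (hsg : A.sg = sgv sp)
    (hep : T.ep = sgv false) {n U S : ℤ} (hc : IsC A n U S (th A n))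
    (hF : Fct A T n U S (fN xp false true ++ (fF false true ++ (fR 2 ++ [])))) : False := by
  cases sp <;> cases xp
  · obtain ⟨k, hk, hS'⟩ := jH h
    exact goR d hb hsg hep hc hF hk hS' (g := cmmm21r73_g) (by decide +kernel) cmmm21r73_k
  · obtain ⟨k, hk, hS'⟩ := jH h
    exact goR d hb hsg hep hc hF hk hS' (g := cmmp21r73_g) (by decide +kernel) cmmp21r73_k
  · obtain ⟨k, hk, hS'⟩ := jH h
    exact goR d hb hsg hep hc hF hk hS' (g := cpmm21r73_g) (by decide +kernel) cpmm21r73_k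
  · obtain ⟨k, hk, hS'⟩ := jH h
    exact goR d hb hsg hep hc hF hk hS' (g := cpmp21r73_g) (by decide +kernel) cpmp21r73_k

end Pool.Agent.H98.HL
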