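import Pool.Agent.H98.HL.NB
import Pool.Agent.H98.HL.N.T58
import Pool.Agent.H98.HL.N.T59
import Pool.Agent.H98.HL.N.T60
import Pool.Agent.H98.HL.N.T61
import Pool.Agent.H98.HL.N.T62
import Pool.Agent.H98.HL.N.T63

/-!
# Tall rectangles: cells which are not of type F (generated)
-/

namespace Pool.Agent.H98.HL

open Pool.Agent.H78.RT
open Pool.Agent.H78.Tie
open Pool.Agent.H78.Tie.TAp
open Pool.Agent.H81.AP (LF add smul dot dot_nil dot_nil' dot_cons dot_add dot_smul AllNn AllNe)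
open Pool.Agent.H23.DT (AllNn.append)
open Pool.Agent.H78.SV (ST env rT rP sgv bT)
open Pool.Agent.H78.HL (TL OV FT Win)

variable {A : TAp} {T : A.Tie}

theorem cm300 {sp xp : Bool} (h : TL T) (d : ST A T (sgv xp)) (hb : Big A) (hsg : A.sg = sgv sp)
    (hep : T.ep = sgv false) {n U S : ℤ} (hc : IsC A n U S (th A n))
    (hF : Fct A T n U S (fN xp true true ++ (fF true false ++ (fR 0 ++ [])))) : False := by
  cases sp <;> cases xp
  · obtain ⟨k, hk, hS'⟩ := jH h
    exact goR d hb hsg hep hc hF hk hS' (g := cmmm30r5_g) (by decide +kernel) cmmm30r5_k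
  · obtain ⟨k, hk, hS'⟩ := jH h
    exact goR d hb hsg hep hc hF hk hS' (g := cmmp30r5_g) (by decide +kernel) cmmp30r5_k
  · obtain ⟨k, hk, hS'⟩ := jH h
    exact goR d hb hsg hep hc hF hk hS' (g := cpmm30r5_g) (by decide +kernel) cpmm30r5_k
  · obtain ⟨k, hk, hS'⟩ := jH h
    exact goR d hb hsg hep hc hF hk hS' (g := cpmp30r5_g) (by decide +kernel) cpmp30r5_k

theorem cm301 {sp xp : Bool} (h : TL T) (d : ST A T (sgv xp)) (hb : Big A) (hsg : A.sg = sgv sp)
    (hep : T.ep = sgv false) {n U S : ℤ} (hc : IsC A n U S (th A n))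
    (hF : Fct A T n U S (fN xp true true ++ (fF true false ++ (fR 1 ++ [])))) : False := by
  cases sp <;> cases xp
  · obtain ⟨k, hk, hS'⟩ := jH h
    exact goR d hb hsg hep hc hF hk hS' (g := cmmm30r41_g) (by decide +kernel) cmmm30r41_k
  · obtain ⟨k, hk, hS'⟩ := jH h
    exact goR d hb hsg hep hc hF hk hS' (g := cmmp30r41_g) (by decide +kernel) cmmp30r41_k
  · obtain ⟨k, hk, hS'⟩ := jH h
    exact goR d hb hsg hep hc hF hk hS' (g := cpmm30r41_g) (by decide +kernel) cpmm30r41_k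
  · obtain ⟨k, hk, hS'⟩ := jH h
    exact goR d hb hsg hep hc hF hk hS' (g := cpmp30r41_g) (by decide +kernel) cpmp30r41_k

theorem cm302 {sp xp : Bool} (h : TL T) (d : ST A T (sgv xp)) (hb : Big A) (hsg : A.sg = sgv sp)
    (hep : T.ep = sgv false) {n U S : ℤ} (hc : IsC A n U S (th A n))
    (hF : Fct A T n U S (fN xp true true ++ (fF true false ++ (fR 2 ++ [])))) : False := by
  cases sp <;> cases xp
  · obtain ⟨k, hk, hS'⟩ := jHX h
    exact goR d hb hsg hep hc hF hk hS' (g := cmmm30r73wR010m1_g) (by decide +kernel) cmmm30r73wR010m1_k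
  · obtain ⟨k, hk, hS'⟩ := jH h
    exact goR d hb hsg hep hc hF hk hS' (g := cmmp30r73wR01_g) (by decide +kernel) cmmp30r73wR01_k
  · obtain ⟨k, hk, hS'⟩ := jqH h
    exact goR d hb hsg hep hc hF hk hS' (g := cpmm30r73wR11_g) (by decide +kernel) cpmm30r73wR11_k
  · obtain ⟨k, hk, hS'⟩ := jH h
    exact goR d hb hsg hep hc hF hk hS' (g := cpmp30r73wR01_g) (by decide +kernel) cpmp30r73wR01_k

theorem cm303 {sp xp : Bool} (h : TL T) (d : ST A T (sgv xp)) (hb : Big A) (hsg : A.sg = sgv sp)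
    (hep : T.ep = sgv false) {n U S : ℤ} (hc : IsC A n U S (th A n))
    (hF : Fct A T n U S (fN xp true true ++ (fF true false ++ (fR 3 ++ [])))) : False := by
  cases sp <;> cases xp
  · obtain ⟨k, hk, hS'⟩ := jH h
    exact goR d hb hsg hep hc hF hk hS' (g := cmmm30r49_g) (by decide +kernel) cmmm30r49_k
  · obtain ⟨k, hk, hS'⟩ := jH h
    exact goR d hb hsg hep hc hF hk hS' (g := cmmp30r49_g) (by decide +kernel) cmmp30r49_k
  · obtain ⟨k, hk, hS'⟩ := jH h
    exact goR d hb hsg hep hc hF hk hS' (g := cpmm30r49_g) (by decide +kernel) cpmm30r49_k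
  · obtain ⟨k, hk, hS'⟩ := jH h
    exact goR d hb hsg hep hc hF hk hS' (g := cpmp30r49_g) (by decide +kernel) cpmp30r49_k

theorem cm304 {sp xp : Bool} (h : TL T) (d : ST A T (sgv xp)) (hb : Big A) (hsg : A.sg = sgv sp)
    (hep : T.ep = sgv false) {n U S : ℤ} (hc : IsC A n U S (th A n))
    (hF : Fct A T n U S (fN xp true true ++ (fF true false ++ (fR 4 ++ [])))) : False := by
  cases sp <;> cases xp
  · obtain ⟨k, hk, hS'⟩ := jH h
    exact goR d hb hsg hep hc hF hk hS' (g := cmmm30r81_g) (by decide +kernel) cmmm30r81_k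
  · obtain ⟨k, hk, hS'⟩ := jH h
    exact goR d hb hsg hep hc hF hk hS' (g := cmmp30r81_g) (by decide +kernel) cmmp30r81_k
  · obtain ⟨k, hk, hS'⟩ := jH h
    exact goR d hb hsg hep hc hF hk hS' (g := cpmm30r81_g) (by decide +kernel) cpmm30r81_k
  · obtain ⟨k, hk, hS'⟩ := jH h
    exact goR d hb hsg hep hc hF hk hS' (g := cpmp30r81_g) (by decide +kernel) cpmp30r81_k

theorem cm310 {sp xp : Bool} (h : TL T) (d : ST A T (sgv xp)) (hb : Big A) (hsg : A.sg = sgv sp)
    (hep : T.ep = sgv false) {n U S : ℤ} (hc : IsC A n U S (th A n))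
    (hF : Fct A T n U S (fN xp true true ++ (fF true true ++ (fR 0 ++ [])))) : False := by
  cases sp <;> cases xp
  · obtain ⟨k, hk, hS'⟩ := jH h
    exact goR d hb hsg hep hc hF hk hS' (g := cmmm31r5_g) (by decide +kernel) cmmm31r5_k
  · obtain ⟨k, hk, hS'⟩ := jH h
    exact goR d hb hsg hep hc hF hk hS' (g := cmmp31r5_g) (by decide +kernel) cmmp31r5_k
  · obtain ⟨k, hk, hS'⟩ := jH h
    exact goR d hb hsg hep hc hF hk hS' (g := cpmm31r5_g) (by decide +kernel) cpmm31r5_k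
  · obtain ⟨k, hk, hS'⟩ := jH h
    exact goR d hb hsg hep hc hF hk hS' (g := cpmp31r5_g) (by decide +kernel) cpmp31r5_k

theorem cm311 {sp xp : Bool} (h : TL T) (d : ST A T (sgv xp)) (hb : Big A) (hsg : A.sg = sgv sp)
    (hep : T.ep = sgv false) {n U S : ℤ} (hc : IsC A n U S (th A n))
    (hF : Fct A T n U S (fN xp true true ++ (fF true true ++ (fR 1 ++ [])))) : False := by
  cases sp <;> cases xp
  · obtain ⟨k, hk, hS'⟩ := jH h
    exact goR d hb hsg hep hc hF hk hS' (g := cmmm31r41_g) (by decide +kernel) cmmm31r41_k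
  · obtain ⟨k, hk, hS'⟩ := jH h
    exact goR d hb hsg hep hc hF hk hS' (g := cmmp31r41_g) (by decide +kernel) cmmp31r41_k
  · obtain ⟨k, hk, hS'⟩ := jH h
    exact goR d hb hsg hep hc hF hk hS' (g := cpmm31r41_g) (by decide +kernel) cpmm31r41_k
  · obtain ⟨k, hk, hS'⟩ := jH h
    exact goR d hb hsg hep hc hF hk hS' (g := cpmp31r41_g) (by decide +kernel) cpmp31r41_k

theorem cm312 {sp xp : Bool} (h : TL T) (d : ST A T (sgv xp)) (hb : Big A) (hsg : A.sg = sgv sp)
    (hep : T.ep = sgv false) {n U S : ℤ} (hc : IsC A n U S (th A n))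
    (hF : Fct A T n U S (fN xp true true ++ (fF true true ++ (fR 2 ++ [])))) : False := by
  cases sp <;> cases xp
  · obtain ⟨k, hk, hS'⟩ := jH h
    exact goR d hb hsg hep hc hF hk hS' (g := cmmm31r73_g) (by decide +kernel) cmmm31r73_k
  · obtain ⟨k, hk, hS'⟩ := jH h
    exact goR d hb hsg hep hc hF hk hS' (g := cmmp31r73_g) (by decide +kernel) cmmp31r73_k
  · obtain ⟨k, hk, hS'⟩ := jH h
    exact goR d hb hsg hep hc hF hk hS' (g := cpmm31r73_g) (by decide +kernel) cpmm31r73_k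
  · obtain ⟨k, hk, hS'⟩ := jH h
    exact goR d hb hsg hep hc hF hk hS' (g := cpmp31r73_g) (by decide +kernel) cpmp31r73_k

end Pool.Agent.H98.HL
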