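import Pool.Agent.H98.HL.NB
import Pool.Agent.H98.HL.N.T0
import Pool.Agent.H98.HL.N.T1
import Pool.Agent.H98.HL.N.T2
import Pool.Agent.H98.HL.N.T3
import Pool.Agent.H98.HL.N.T4
import Pool.Agent.H98.HL.N.T5
import Pool.Agent.H98.HL.N.T6
import Pool.Agent.H98.HL.N.T7
import Pool.Agent.H98.HL.N.T8
import Pool.Agent.H98.HL.N.T9
import Pool.Agent.H98.HL.N.T10
import Pool.Agent.H98.HL.N.T11

/-!
# Tall rectangles: cells which are not of type F (generated)
-/

namespace Pool.Agent.H98.HL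

open Pool.Agent.H78.RT
open Pool.Agent.H78.Tie
open Pool.Agent.H78.Tie.TAp
open Pool.Agent.H81.AP (LF add smul dot dot_nil dot_nil' dot_cons dot_add dot_smul AllNn AllNe)
open Pool.Agent.H23.DT (AllNn.append)
open Pool.Agent.H78.SV (ST env rT rP sgv bT)
open Pool.Agent.H78.HL (TL OV FT Win)

variable {A : TAp} {T : A.Tie}

theorem cp000 {sp xp : Bool} (h : TL T) (d : ST A T (sgv xp)) (hb : Big A) (hsg : A.sg = sgv sp)
    (hep : T.ep = sgv true) {n U S : ℤ} (hc : IsC A n U S (th A n))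
    (hF : Fct A T n U S (fN xp false false ++ (fF true false ++ (fR 0 ++ [])))) : False := by
  cases sp <;> cases xp
  · obtain ⟨k, hk, hS'⟩ := jH h
    exact goR d hb hsg hep hc hF hk hS' (g := cmpm00r5_g) (by decide +kernel) cmpm00r5_k
  · obtain ⟨k, hk, hS'⟩ := jH h
    exact goR d hb hsg hep hc hF hk hS' (g := cmpp00r5_g) (by decide +kernel) cmpp00r5_k
  · obtain ⟨k, hk, hS'⟩ := jH h
    exact goR d hb hsg hep hc hF hk hS' (g := cppm00r5_g) (by decide +kernel) cppm00r5_k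
  · obtain ⟨k, hk, hS'⟩ := jH h
    exact goR d hb hsg hep hc hF hk hS' (g := cppp00r5_g) (by decide +kernel) cppp00r5_k

theorem cp001 {sp xp : Bool} (h : TL T) (d : ST A T (sgv xp)) (hb : Big A) (hsg : A.sg = sgv sp)
    (hep : T.ep = sgv true) {n U S : ℤ} (hc : IsC A n U S (th A n))
    (hF : Fct A T n U S (fN xp false false ++ (fF true false ++ (fR 1 ++ [])))) : False := by
  cases sp <;> cases xp
  · obtain ⟨k, hk, hS'⟩ := jH h
    exact goR d hb hsg hep hc hF hk hS' (g := cmpm00r41_g) (by decide +kernel) cmpm00r41_k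
  · obtain ⟨k, hk, hS'⟩ := jH h
    exact goR d hb hsg hep hc hF hk hS' (g := cmpp00r41_g) (by decide +kernel) cmpp00r41_k
  · obtain ⟨k, hk, hS'⟩ := jH h
    exact goR d hb hsg hep hc hF hk hS' (g := cppm00r41_g) (by decide +kernel) cppm00r41_k
  · obtain ⟨k, hk, hS'⟩ := jH h
    exact goR d hb hsg hep hc hF hk hS' (g := cppp00r41_g) (by decide +kernel) cppp00r41_k

theorem cp002 {sp xp : Bool} (h : TL T) (d : ST A T (sgv xp)) (hb : Big A) (hsg : A.sg = sgv sp)
    (hep : T.ep = sgv true) {n U S : ℤ} (hc : IsC A n U S (th A n))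
    (hF : Fct A T n U S (fN xp false false ++ (fF true false ++ (fR 2 ++ [])))) : False := by
  cases sp <;> cases xp
  · obtain ⟨k, hk, hS'⟩ := jqH h
    exact goR d hb hsg hep hc hF hk hS' (g := cmpm00r73wR11_g) (by decide +kernel) cmpm00r73wR11_k
  · obtain ⟨k, hk, hS'⟩ := jH h
    exact goR d hb hsg hep hc hF hk hS' (g := cmpp00r73_g) (by decide +kernel) cmpp00r73_k
  · obtain ⟨k, hk, hS'⟩ := jHW h
    exact goR d hb hsg hep hc hF hk hS' (g := cppm00r73wR01m1_g) (by decide +kernel) cppm00r73wR01m1_k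
  · obtain ⟨k, hk, hS'⟩ := jH h
    exact goR d hb hsg hep hc hF hk hS' (g := cppp00r73_g) (by decide +kernel) cppp00r73_k

theorem cp003 {sp xp : Bool} (h : TL T) (d : ST A T (sgv xp)) (hb : Big A) (hsg : A.sg = sgv sp)
    (hep : T.ep = sgv true) {n U S : ℤ} (hc : IsC A n U S (th A n))
    (hF : Fct A T n U S (fN xp false false ++ (fF true false ++ (fR 3 ++ [])))) : False := by
  cases sp <;> cases xp
  · obtain ⟨k, hk, hS'⟩ := jH h
    exact goR d hb hsg hep hc hF hk hS' (g := cmpm00r49_g) (by decide +kernel) cmpm00r49_k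
  · obtain ⟨k, hk, hS'⟩ := jH h
    exact goR d hb hsg hep hc hF hk hS' (g := cmpp00r49_g) (by decide +kernel) cmpp00r49_k
  · obtain ⟨k, hk, hS'⟩ := jH h
    exact goR d hb hsg hep hc hF hk hS' (g := cppm00r49_g) (by decide +kernel) cppm00r49_k
  · obtain ⟨k, hk, hS'⟩ := jH h
    exact goR d hb hsg hep hc hF hk hS' (g := cppp00r49_g) (by decide +kernel) cppp00r49_k

theorem cp004 {sp xp : Bool} (h : TL T) (d : ST A T (sgv xp)) (hb : Big A) (hsg : A.sg = sgv sp)
    (hep : T.ep = sgv true) {n U S : ℤ} (hc : IsC A n U S (th A n))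
    (hF : Fct A T n U S (fN xp false false ++ (fF true false ++ (fR 4 ++ [])))) : False := by
  cases sp <;> cases xp
  · obtain ⟨k, hk, hS'⟩ := jqH h
    exact goR d hb hsg hep hc hF hk hS' (g := cmpm00r81wR11_g) (by decide +kernel) cmpm00r81wR11_k
  · obtain ⟨k, hk, hS'⟩ := jH h
    exact goR d hb hsg hep hc hF hk hS' (g := cmpp00r81_g) (by decide +kernel) cmpp00r81_k
  · obtain ⟨k, hk, hS'⟩ := jWH h
    exact goR d hb hsg hep hc hF hk hS' (g := cppm00r81wR0m11_g) (by decide +kernel) cppm00r81wR0m11_k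
  · obtain ⟨k, hk, hS'⟩ := jH h
    exact goR d hb hsg hep hc hF hk hS' (g := cppp00r81_g) (by decide +kernel) cppp00r81_k

theorem cp010 {sp xp : Bool} (h : TL T) (d : ST A T (sgv xp)) (hb : Big A) (hsg : A.sg = sgv sp)
    (hep : T.ep = sgv true) {n U S : ℤ} (hc : IsC A n U S (th A n))
    (hF : Fct A T n U S (fN xp false false ++ (fF true true ++ (fR 0 ++ [])))) : False := by
  cases sp <;> cases xp
  · obtain ⟨k, hk, hS'⟩ := jH h
    exact goR d hb hsg hep hc hF hk hS' (g := cmpm01r5_g) (by decide +kernel) cmpm01r5_k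
  · obtain ⟨k, hk, hS'⟩ := jH h
    exact goR d hb hsg hep hc hF hk hS' (g := cmpp01r5_g) (by decide +kernel) cmpp01r5_k
  · obtain ⟨k, hk, hS'⟩ := jH h
    exact goR d hb hsg hep hc hF hk hS' (g := cppm01r5_g) (by decide +kernel) cppm01r5_k
  · obtain ⟨k, hk, hS'⟩ := jH h
    exact goR d hb hsg hep hc hF hk hS' (g := cppp01r5_g) (by decide +kernel) cppp01r5_k

theorem cp011 {sp xp : Bool} (h : TL T) (d : ST A T (sgv xp)) (hb : Big A) (hsg : A.sg = sgv sp)
    (hep : T.ep = sgv true) {n U S : ℤ} (hc : IsC A n U S (th A n))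
    (hF : Fct A T n U S (fN xp false false ++ (fF true true ++ (fR 1 ++ [])))) : False := by
  cases sp <;> cases xp
  · obtain ⟨k, hk, hS'⟩ := jH h
    exact goR d hb hsg hep hc hF hk hS' (g := cmpm01r41_g) (by decide +kernel) cmpm01r41_k
  · obtain ⟨k, hk, hS'⟩ := jH h
    exact goR d hb hsg hep hc hF hk hS' (g := cmpp01r41_g) (by decide +kernel) cmpp01r41_k
  · obtain ⟨k, hk, hS'⟩ := jH h
    exact goR d hb hsg hep hc hF hk hS' (g := cppm01r41_g) (by decide +kernel) cppm01r41_k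
  · obtain ⟨k, hk, hS'⟩ := jH h
    exact goR d hb hsg hep hc hF hk hS' (g := cppp01r41_g) (by decide +kernel) cppp01r41_k

theorem cp012 {sp xp : Bool} (h : TL T) (d : ST A T (sgv xp)) (hb : Big A) (hsg : A.sg = sgv sp)
    (hep : T.ep = sgv true) {n U S : ℤ} (hc : IsC A n U S (th A n))
    (hF : Fct A T n U S (fN xp false false ++ (fF true true ++ (fR 2 ++ [])))) : False := by
  cases sp <;> cases xp
  · obtain ⟨k, hk, hS'⟩ := jH h
    exact goR d hb hsg hep hc hF hk hS' (g := cmpm01r73_g) (by decide +kernel) cmpm01r73_k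
  · obtain ⟨k, hk, hS'⟩ := jH h
    exact goR d hb hsg hep hc hF hk hS' (g := cmpp01r73_g) (by decide +kernel) cmpp01r73_k
  · obtain ⟨k, hk, hS'⟩ := jH h
    exact goR d hb hsg hep hc hF hk hS' (g := cppm01r73_g) (by decide +kernel) cppm01r73_k
  · obtain ⟨k, hk, hS'⟩ := jH h
    exact goR d hb hsg hep hc hF hk hS' (g := cppp01r73_g) (by decide +kernel) cppp01r73_k

theorem cp013 {sp xp : Bool} (h : TL T) (d : ST A T (sgv xp)) (hb : Big A) (hsg : A.sg = sgv sp)
    (hep : T.ep = sgv true) {n U S : ℤ} (hc : IsC A n U S (th A n))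
    (hF : Fct A T n U S (fN xp false false ++ (fF true true ++ (fR 3 ++ [])))) : False := by
  cases sp <;> cases xp
  · obtain ⟨k, hk, hS'⟩ := jH h
    exact goR d hb hsg hep hc hF hk hS' (g := cmpm01r49_g) (by decide +kernel) cmpm01r49_k
  · obtain ⟨k, hk, hS'⟩ := jH h
    exact goR d hb hsg hep hc hF hk hS' (g := cmpp01r49_g) (by decide +kernel) cmpp01r49_k
  · obtain ⟨k, hk, hS'⟩ := jH h
    exact goR d hb hsg hep hc hF hk hS' (g := cppm01r49wR01_g) (by decide +kernel) cppm01r49wR01_k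
  · obtain ⟨k, hk, hS'⟩ := jH h
    exact goR d hb hsg hep hc hF hk hS' (g := cppp01r49_g) (by decide +kernel) cppp01r49_k

theorem cp014 {sp xp : Bool} (h : TL T) (d : ST A T (sgv xp)) (hb : Big A) (hsg : A.sg = sgv sp)
    (hep : T.ep = sgv true) {n U S : ℤ} (hc : IsC A n U S (th A n))
    (hF : Fct A T n U S (fN xp false false ++ (fF true true ++ (fR 4 ++ [])))) : False := by
  cases sp <;> cases xp
  · obtain ⟨k, hk, hS'⟩ := jqH h
    exact goR d hb hsg hep hc hF hk hS' (g := cmpm01r81wR11_g) (by decide +kernel) cmpm01r81wR11_k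
  · obtain ⟨k, hk, hS'⟩ := jH h
    exact goR d hb hsg hep hc hF hk hS' (g := cmpp01r81_g) (by decide +kernel) cmpp01r81_k
  · obtain ⟨k, hk, hS'⟩ := jq h
    exact goR d hb hsg hep hc hF hk hS' (g := cppm01r81xR1_g) (by decide +kernel) cppm01r81xR1_k
  · obtain ⟨k, hk, hS'⟩ := jH h
    exact goR d hb hsg hep hc hF hk hS' (g := cppp01r81_g) (by decide +kernel) cppp01r81_k

end Pool.Agent.H98.HL
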