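import Pool.Agent.H98.HL.NB
import Pool.Agent.H98.HL.N.T11
import Pool.Agent.H98.HL.N.T12
import Pool.Agent.H98.HL.N.T13
import Pool.Agent.H98.HL.N.T14
import Pool.Agent.H98.HL.N.T15
import Pool.Agent.H98.HL.N.T16
import Pool.Agent.H98.HL.N.T17
import Pool.Agent.H98.HL.N.T18

/-!
# Tall rectangles: cells which are not of type F (generated)
-/

namespace Pool.Agent.H98.HL

open Pool.Agent.H78.RT
open Pool.Agent.H78.Tie
open Pool.Agent.H78.Tie.TAp
open Pool.Agent.H81.AP (LF add smul dot dot_nil dot_nil' dot_cons dot_add dot_smul AllNn AllNe)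
open Pool.Agent.H23.DT (AllNn.append)
open Pool.Agent.H78.SV (ST env rT rP sgv bT)
open Pool.Agent.H78.HL (TL OV FT Win)

variable {A : TAp} {T : A.Tie}

theorem cp100 {sp xp : Bool} (h : TL T) (d : ST A T (sgv xp)) (hb : Big A) (hsg : A.sg = sgv sp)
    (hep : T.ep = sgv true) {n U S : ℤ} (hc : IsC A n U S (th A n))
    (hF : Fct A T n U S (fN xp true false ++ (fF false false ++ (fR 0 ++ [])))) : False := by
  cases sp <;> cases xp
  · obtain ⟨k, hk, hS'⟩ := jH h
    exact goR d hb hsg hep hc hF hk hS' (g := cmpm10r5_g) (by decide +kernel) cmpm10r5_k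
  · obtain ⟨k, hk, hS'⟩ := jH h
    exact goR d hb hsg hep hc hF hk hS' (g := cmpp10r5_g) (by decide +kernel) cmpp10r5_k
  · obtain ⟨k, hk, hS'⟩ := jH h
    exact goR d hb hsg hep hc hF hk hS' (g := cppm10r5_g) (by decide +kernel) cppm10r5_k
  · obtain ⟨k, hk, hS'⟩ := jH h
    exact goR d hb hsg hep hc hF hk hS' (g := cppp10r5_g) (by decide +kernel) cppp10r5_k

theorem cp101 {sp xp : Bool} (h : TL T) (d : ST A T (sgv xp)) (hb : Big A) (hsg : A.sg = sgv sp)
    (hep : T.ep = sgv true) {n U S : ℤ} (hc : IsC A n U S (th A n))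
    (hF : Fct A T n U S (fN xp true false ++ (fF false false ++ (fR 1 ++ [])))) : False := by
  cases sp <;> cases xp
  · obtain ⟨k, hk, hS'⟩ := jH h
    exact goR d hb hsg hep hc hF hk hS' (g := cmpm10r41_g) (by decide +kernel) cmpm10r41_k
  · obtain ⟨k, hk, hS'⟩ := jH h
    exact goR d hb hsg hep hc hF hk hS' (g := cmpp10r41_g) (by decide +kernel) cmpp10r41_k
  · obtain ⟨k, hk, hS'⟩ := jH h
    exact goR d hb hsg hep hc hF hk hS' (g := cppm10r41_g) (by decide +kernel) cppm10r41_k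
  · obtain ⟨k, hk, hS'⟩ := jH h
    exact goR d hb hsg hep hc hF hk hS' (g := cppp10r41_g) (by decide +kernel) cppp10r41_k

theorem cp102 {sp xp : Bool} (h : TL T) (d : ST A T (sgv xp)) (hb : Big A) (hsg : A.sg = sgv sp)
    (hep : T.ep = sgv true) {n U S : ℤ} (hc : IsC A n U S (th A n))
    (hF : Fct A T n U S (fN xp true false ++ (fF false false ++ (fR 2 ++ [])))) : False := by
  cases sp <;> cases xp
  · obtain ⟨k, hk, hS'⟩ := jHW h
    exact goR d hb hsg hep hc hF hk hS' (g := cmpm10r73wR01m1_g) (by decide +kernel) cmpm10r73wR01m1_k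
  · obtain ⟨k, hk, hS'⟩ := jH h
    exact goR d hb hsg hep hc hF hk hS' (g := cmpp10r73_g) (by decide +kernel) cmpp10r73_k
  · obtain ⟨k, hk, hS'⟩ := jHX h
    exact goR d hb hsg hep hc hF hk hS' (g := cppm10r73wR010m1_g) (by decide +kernel) cppm10r73wR010m1_k
  · obtain ⟨k, hk, hS'⟩ := jH h
    exact goR d hb hsg hep hc hF hk hS' (g := cppp10r73_g) (by decide +kernel) cppp10r73_k

theorem cp103 {sp xp : Bool} (h : TL T) (d : ST A T (sgv xp)) (hb : Big A) (hsg : A.sg = sgv sp)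
    (hep : T.ep = sgv true) {n U S : ℤ} (hc : IsC A n U S (th A n))
    (hF : Fct A T n U S (fN xp true false ++ (fF false false ++ (fR 3 ++ [])))) : False := by
  cases sp <;> cases xp
  · obtain ⟨k, hk, hS'⟩ := jH h
    exact goR d hb hsg hep hc hF hk hS' (g := cmpm10r49_g) (by decide +kernel) cmpm10r49_k
  · obtain ⟨k, hk, hS'⟩ := jH h
    exact goR d hb hsg hep hc hF hk hS' (g := cmpp10r49_g) (by decide +kernel) cmpp10r49_k
  · obtain ⟨k, hk, hS'⟩ := jH h
    exact goR d hb hsg hep hc hF hk hS' (g := cppm10r49_g) (by decide +kernel) cppm10r49_k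
  · obtain ⟨k, hk, hS'⟩ := jH h
    exact goR d hb hsg hep hc hF hk hS' (g := cppp10r49_g) (by decide +kernel) cppp10r49_k

theorem cp104 {sp xp : Bool} (h : TL T) (d : ST A T (sgv xp)) (hb : Big A) (hsg : A.sg = sgv sp)
    (hep : T.ep = sgv true) {n U S : ℤ} (hc : IsC A n U S (th A n))
    (hF : Fct A T n U S (fN xp true false ++ (fF false false ++ (fR 4 ++ [])))) : False := by
  cases sp <;> cases xp
  · obtain ⟨k, hk, hS'⟩ := jHX h
    exact goR d hb hsg hep hc hF hk hS' (g := cmpm10r81wR010m1_g) (by decide +kernel) cmpm10r81wR010m1_k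
  · obtain ⟨k, hk, hS'⟩ := jH h
    exact goR d hb hsg hep hc hF hk hS' (g := cmpp10r81_g) (by decide +kernel) cmpp10r81_k
  · obtain ⟨k, hk, hS'⟩ := jHW h
    exact goR d hb hsg hep hc hF hk hS' (g := cppm10r81wR01m1_g) (by decide +kernel) cppm10r81wR01m1_k
  · obtain ⟨k, hk, hS'⟩ := jH h
    exact goR d hb hsg hep hc hF hk hS' (g := cppp10r81_g) (by decide +kernel) cppp10r81_k

theorem cp110 {sp xp : Bool} (h : TL T) (d : ST A T (sgv xp)) (hb : Big A) (hsg : A.sg = sgv sp)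
    (hep : T.ep = sgv true) {n U S : ℤ} (hc : IsC A n U S (th A n))
    (hF : Fct A T n U S (fN xp true false ++ (fF false true ++ (fR 0 ++ [])))) : False := by
  cases sp <;> cases xp
  · obtain ⟨k, hk, hS'⟩ := jq h
    exact goR d hb hsg hep hc hF hk hS' (g := cmpm11r5wR1_g) (by decide +kernel) cmpm11r5wR1_k
  · obtain ⟨k, hk, hS'⟩ := jH h
    exact goR d hb hsg hep hc hF hk hS' (g := cmpp11r5_g) (by decide +kernel) cmpp11r5_k
  · obtain ⟨k, hk, hS'⟩ := jq h
    exact goR d hb hsg hep hc hF hk hS' (g := cppm11r5wR1_g) (by decide +kernel) cppm11r5wR1_k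
  · obtain ⟨k, hk, hS'⟩ := jH h
    exact goR d hb hsg hep hc hF hk hS' (g := cppp11r5_g) (by decide +kernel) cppp11r5_k

theorem cp111 {sp xp : Bool} (h : TL T) (d : ST A T (sgv xp)) (hb : Big A) (hsg : A.sg = sgv sp)
    (hep : T.ep = sgv true) {n U S : ℤ} (hc : IsC A n U S (th A n))
    (hF : Fct A T n U S (fN xp true false ++ (fF false true ++ (fR 1 ++ [])))) : False := by
  cases sp <;> cases xp
  · obtain ⟨k, hk, hS'⟩ := jH h
    exact goR d hb hsg hep hc hF hk hS' (g := cmpm11r41_g) (by decide +kernel) cmpm11r41_k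
  · obtain ⟨k, hk, hS'⟩ := jH h
    exact goR d hb hsg hep hc hF hk hS' (g := cmpp11r41_g) (by decide +kernel) cmpp11r41_k
  · obtain ⟨k, hk, hS'⟩ := jH h
    exact goR d hb hsg hep hc hF hk hS' (g := cppm11r41_g) (by decide +kernel) cppm11r41_k
  · obtain ⟨k, hk, hS'⟩ := jH h
    exact goR d hb hsg hep hc hF hk hS' (g := cppp11r41_g) (by decide +kernel) cppp11r41_k

theorem cp112 {sp xp : Bool} (h : TL T) (d : ST A T (sgv xp)) (hb : Big A) (hsg : A.sg = sgv sp)
    (hep : T.ep = sgv true) {n U S : ℤ} (hc : IsC A n U S (th A n))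
    (hF : Fct A T n U S (fN xp true false ++ (fF false true ++ (fR 2 ++ [])))) : False := by
  cases sp <;> cases xp
  · obtain ⟨k, hk, hS'⟩ := jH h
    exact goR d hb hsg hep hc hF hk hS' (g := cmpm11r73_g) (by decide +kernel) cmpm11r73_k
  · obtain ⟨k, hk, hS'⟩ := jH h
    exact goR d hb hsg hep hc hF hk hS' (g := cmpp11r73_g) (by decide +kernel) cmpp11r73_k
  · obtain ⟨k, hk, hS'⟩ := jH h
    exact goR d hb hsg hep hc hF hk hS' (g := cppm11r73_g) (by decide +kernel) cppm11r73_k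
  · obtain ⟨k, hk, hS'⟩ := jH h
    exact goR d hb hsg hep hc hF hk hS' (g := cppp11r73_g) (by decide +kernel) cppp11r73_k

end Pool.Agent.H98.HL
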