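import Pool.Agent.H98.HL.NB
import Pool.Agent.H98.HL.N.T18
import Pool.Agent.H98.HL.N.T19
import Pool.Agent.H98.HL.N.T20
import Pool.Agent.H98.HL.N.T21
import Pool.Agent.H98.HL.N.T22
import Pool.Agent.H98.HL.N.T23
import Pool.Agent.H98.HL.N.T24
import Pool.Agent.H98.HL.N.T25
import Pool.Agent.H98.HL.N.T26
import Pool.Agent.H98.HL.N.T27
import Pool.Agent.H98.HL.N.T28

/-!
# Tall rectangles: cells which are not of type F (generated)
-/

namespace Pool.Agent.H98.HL

open Pool.Agent.H78.RT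
open Pool.Agent.H78.Tie
open Pool.Agent.H78.Tie.TAp
open Pool.Agent.H81.AP (LF add smul dot dot_nil dot_nil' dot_cons dot_add dot_smul AllNn AllNe)
open Pool.Agent.H23.DT (AllNn.append)
open Pool.Agent.H78.SV (ST env rT rP sgv bT)
open Pool.Agent.H78.HL (TL OV FT Win)

variable {A : TAp} {T : A.Tie}

theorem cp200 {sp xp : Bool} (h : TL T) (d : ST A T (sgv xp)) (hb : Big A) (hsg : A.sg = sgv sp)
    (hep : T.ep = sgv true) {n U S : ℤ} (hc : IsC A n U S (th A n))
    (hF : Fct A T n U S (fN xp false true ++ (fF true false ++ (fR 0 ++ [])))) : False := by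
  cases sp <;> cases xp
  · obtain ⟨k, hk, hS'⟩ := jH h
    exact goR d hb hsg hep hc hF hk hS' (g := cmpm20r5_g) (by decide +kernel) cmpm20r5_k
  · obtain ⟨k, hk, hS'⟩ := jH h
    exact goR d hb hsg hep hc hF hk hS' (g := cmpp20r5_g) (by decide +kernel) cmpp20r5_k
  · obtain ⟨k, hk, hS'⟩ := jH h
    exact goR d hb hsg hep hc hF hk hS' (g := cppm20r5_g) (by decide +kernel) cppm20r5_k
  · obtain ⟨k, hk, hS'⟩ := jH h
    exact goR d hb hsg hep hc hF hk hS' (g := cppp20r5_g) (by decide +kernel) cppp20r5_k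

theorem cp201 {sp xp : Bool} (h : TL T) (d : ST A T (sgv xp)) (hb : Big A) (hsg : A.sg = sgv sp)
    (hep : T.ep = sgv true) {n U S : ℤ} (hc : IsC A n U S (th A n))
    (hF : Fct A T n U S (fN xp false true ++ (fF true false ++ (fR 1 ++ [])))) : False := by
  cases sp <;> cases xp
  · obtain ⟨k, hk, hS'⟩ := jH h
    exact goR d hb hsg hep hc hF hk hS' (g := cmpm20r41_g) (by decide +kernel) cmpm20r41_k
  · obtain ⟨k, hk, hS'⟩ := jH h
    exact goR d hb hsg hep hc hF hk hS' (g := cmpp20r41_g) (by decide +kernel) cmpp20r41_k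
  · obtain ⟨k, hk, hS'⟩ := jH h
    exact goR d hb hsg hep hc hF hk hS' (g := cppm20r41_g) (by decide +kernel) cppm20r41_k
  · obtain ⟨k, hk, hS'⟩ := jH h
    exact goR d hb hsg hep hc hF hk hS' (g := cppp20r41_g) (by decide +kernel) cppp20r41_k

theorem cp202 {sp xp : Bool} (h : TL T) (d : ST A T (sgv xp)) (hb : Big A) (hsg : A.sg = sgv sp)
    (hep : T.ep = sgv true) {n U S : ℤ} (hc : IsC A n U S (th A n))
    (hF : Fct A T n U S (fN xp false true ++ (fF true false ++ (fR 2 ++ [])))) : False := by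
  cases sp <;> cases xp
  · obtain ⟨k, hk, hS'⟩ := jqH h
    exact goR d hb hsg hep hc hF hk hS' (g := cmpm20r73wR11_g) (by decide +kernel) cmpm20r73wR11_k
  · obtain ⟨k, hk, hS'⟩ := jH h
    exact goR d hb hsg hep hc hF hk hS' (g := cmpp20r73_g) (by decide +kernel) cmpp20r73_k
  · obtain ⟨k, hk, hS'⟩ := jH h
    exact goR d hb hsg hep hc hF hk hS' (g := cppm20r73wR01_g) (by decide +kernel) cppm20r73wR01_k
  · obtain ⟨k, hk, hS'⟩ := jH h
    exact goR d hb hsg hep hc hF hk hS' (g := cppp20r73_g) (by decide +kernel) cppp20r73_k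

theorem cp203 {sp xp : Bool} (h : TL T) (d : ST A T (sgv xp)) (hb : Big A) (hsg : A.sg = sgv sp)
    (hep : T.ep = sgv true) {n U S : ℤ} (hc : IsC A n U S (th A n))
    (hF : Fct A T n U S (fN xp false true ++ (fF true false ++ (fR 3 ++ [])))) : False := by
  cases sp <;> cases xp
  · obtain ⟨k, hk, hS'⟩ := jH h
    exact goR d hb hsg hep hc hF hk hS' (g := cmpm20r49_g) (by decide +kernel) cmpm20r49_k
  · obtain ⟨k, hk, hS'⟩ := jH h
    exact goR d hb hsg hep hc hF hk hS' (g := cmpp20r49_g) (by decide +kernel) cmpp20r49_k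
  · obtain ⟨k, hk, hS'⟩ := jH h
    exact goR d hb hsg hep hc hF hk hS' (g := cppm20r49_g) (by decide +kernel) cppm20r49_k
  · obtain ⟨k, hk, hS'⟩ := jH h
    exact goR d hb hsg hep hc hF hk hS' (g := cppp20r49_g) (by decide +kernel) cppp20r49_k

theorem cp204 {sp xp : Bool} (h : TL T) (d : ST A T (sgv xp)) (hb : Big A) (hsg : A.sg = sgv sp)
    (hep : T.ep = sgv true) {n U S : ℤ} (hc : IsC A n U S (th A n))
    (hF : Fct A T n U S (fN xp false true ++ (fF true false ++ (fR 4 ++ [])))) : False := by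
  cases sp <;> cases xp
  · obtain ⟨k, hk, hS'⟩ := jH h
    exact goR d hb hsg hep hc hF hk hS' (g := cmpm20r81_g) (by decide +kernel) cmpm20r81_k
  · obtain ⟨k, hk, hS'⟩ := jH h
    exact goR d hb hsg hep hc hF hk hS' (g := cmpp20r81_g) (by decide +kernel) cmpp20r81_k
  · obtain ⟨k, hk, hS'⟩ := jH h
    exact goR d hb hsg hep hc hF hk hS' (g := cppm20r81_g) (by decide +kernel) cppm20r81_k
  · obtain ⟨k, hk, hS'⟩ := jH h
    exact goR d hb hsg hep hc hF hk hS' (g := cppp20r81_g) (by decide +kernel) cppp20r81_k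

theorem cp210 {sp xp : Bool} (h : TL T) (d : ST A T (sgv xp)) (hb : Big A) (hsg : A.sg = sgv sp)
    (hep : T.ep = sgv true) {n U S : ℤ} (hc : IsC A n U S (th A n))
    (hF : Fct A T n U S (fN xp false true ++ (fF true true ++ (fR 0 ++ [])))) : False := by
  cases sp <;> cases xp
  · obtain ⟨k, hk, hS'⟩ := jH h
    exact goR d hb hsg hep hc hF hk hS' (g := cmpm21r5_g) (by decide +kernel) cmpm21r5_k
  · obtain ⟨k, hk, hS'⟩ := jH h
    exact goR d hb hsg hep hc hF hk hS' (g := cmpp21r5_g) (by decide +kernel) cmpp21r5_k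
  · obtain ⟨k, hk, hS'⟩ := jH h
    exact goR d hb hsg hep hc hF hk hS' (g := cppm21r5_g) (by decide +kernel) cppm21r5_k
  · obtain ⟨k, hk, hS'⟩ := jH h
    exact goR d hb hsg hep hc hF hk hS' (g := cppp21r5_g) (by decide +kernel) cppp21r5_k

theorem cp211 {sp xp : Bool} (h : TL T) (d : ST A T (sgv xp)) (hb : Big A) (hsg : A.sg = sgv sp)
    (hep : T.ep = sgv true) {n U S : ℤ} (hc : IsC A n U S (th A n))
    (hF : Fct A T n U S (fN xp false true ++ (fF true true ++ (fR 1 ++ [])))) : False := by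
  cases sp <;> cases xp
  · obtain ⟨k, hk, hS'⟩ := jH h
    exact goR d hb hsg hep hc hF hk hS' (g := cmpm21r41_g) (by decide +kernel) cmpm21r41_k
  · obtain ⟨k, hk, hS'⟩ := jH h
    exact goR d hb hsg hep hc hF hk hS' (g := cmpp21r41_g) (by decide +kernel) cmpp21r41_k
  · obtain ⟨k, hk, hS'⟩ := jH h
    exact goR d hb hsg hep hc hF hk hS' (g := cppm21r41_g) (by decide +kernel) cppm21r41_k
  · obtain ⟨k, hk, hS'⟩ := jH h
    exact goR d hb hsg hep hc hF hk hS' (g := cppp21r41_g) (by decide +kernel) cppp21r41_k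

theorem cp212 {sp xp : Bool} (h : TL T) (d : ST A T (sgv xp)) (hb : Big A) (hsg : A.sg = sgv sp)
    (hep : T.ep = sgv true) {n U S : ℤ} (hc : IsC A n U S (th A n))
    (hF : Fct A T n U S (fN xp false true ++ (fF true true ++ (fR 2 ++ [])))) : False := by
  cases sp <;> cases xp
  · obtain ⟨k, hk, hS'⟩ := jH h
    exact goR d hb hsg hep hc hF hk hS' (g := cmpm21r73_g) (by decide +kernel) cmpm21r73_k
  · obtain ⟨k, hk, hS'⟩ := jH h
    exact goR d hb hsg hep hc hF hk hS' (g := cmpp21r73_g) (by decide +kernel) cmpp21r73_k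
  · obtain ⟨k, hk, hS'⟩ := jH h
    exact goR d hb hsg hep hc hF hk hS' (g := cppm21r73_g) (by decide +kernel) cppm21r73_k
  · obtain ⟨k, hk, hS'⟩ := jH h
    exact goR d hb hsg hep hc hF hk hS' (g := cppp21r73_g) (by decide +kernel) cppp21r73_k

theorem cp213 {sp xp : Bool} (h : TL T) (d : ST A T (sgv xp)) (hb : Big A) (hsg : A.sg = sgv sp)
    (hep : T.ep = sgv true) {n U S : ℤ} (hc : IsC A n U S (th A n))
    (hF : Fct A T n U S (fN xp false true ++ (fF true true ++ (fR 3 ++ [])))) : False := by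
  cases sp <;> cases xp
  · obtain ⟨k, hk, hS'⟩ := jH h
    exact goR d hb hsg hep hc hF hk hS' (g := cmpm21r49_g) (by decide +kernel) cmpm21r49_k
  · obtain ⟨k, hk, hS'⟩ := jH h
    exact goR d hb hsg hep hc hF hk hS' (g := cmpp21r49_g) (by decide +kernel) cmpp21r49_k
  · obtain ⟨k, hk, hS'⟩ := jH h
    exact goR d hb hsg hep hc hF hk hS' (g := cppm21r49_g) (by decide +kernel) cppm21r49_k
  · obtain ⟨k, hk, hS'⟩ := jH h
    exact goR d hb hsg hep hc hF hk hS' (g := cppp21r49_g) (by decide +kernel) cppp21r49_k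

theorem cp214 {sp xp : Bool} (h : TL T) (d : ST A T (sgv xp)) (hb : Big A) (hsg : A.sg = sgv sp)
    (hep : T.ep = sgv true) {n U S : ℤ} (hc : IsC A n U S (th A n))
    (hF : Fct A T n U S (fN xp false true ++ (fF true true ++ (fR 4 ++ [])))) : False := by
  cases sp <;> cases xp
  · obtain ⟨k, hk, hS'⟩ := jHX h
    exact goR d hb hsg hep hc hF hk hS' (g := cmpm21r81xR010m1_g) (by decide +kernel) cmpm21r81xR010m1_k
  · obtain ⟨k, hk, hS'⟩ := jqH h
    exact goR d hb hsg hep hc hF hk hS' (g := cmpp21r81wR11_g) (by decide +kernel) cmpp21r81wR11_k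
  · obtain ⟨k, hk, hS'⟩ := jHX h
    exact goR d hb hsg hep hc hF hk hS' (g := cppm21r81wR010m1_g) (by decide +kernel) cppm21r81wR010m1_k
  · obtain ⟨k, hk, hS'⟩ := jH h
    exact goR d hb hsg hep hc hF hk hS' (g := cppp21r81_g) (by decide +kernel) cppp21r81_k

end Pool.Agent.H98.HL
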