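import Pool.Agent.H98.HL.NB
import Pool.Agent.H98.HL.N.T28
import Pool.Agent.H98.HL.N.T29
import Pool.Agent.H98.HL.N.T30
import Pool.Agent.H98.HL.N.T31
import Pool.Agent.H98.HL.N.T32
import Pool.Agent.H98.HL.N.T33

/-!
# Tall rectangles: cells which are not of type F (generated)
-/

namespace Pool.Agent.H98.HL

open Pool.Agent.H78.RT
open Pool.Agent.H78.Tie
open Pool.Agent.H78.Tie.TAp
open Pool.Agent.H81.AP (LF add smul dot dot_nil dot_nil' dot_cons dot_add dot_smul AllNn AllNe)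
open Pool.Agent.H23.DT (AllNn.append)
open Pool.Agent.H78.SV (ST env rT rP sgv bT)
open Pool.Agent.H78.HL (TL OV FT Win)

variable {A : TAp} {T : A.Tie}

theorem cp300 {sp xp : Bool} (h : TL T) (d : ST A T (sgv xp)) (hb : Big A) (hsg : A.sg = sgv sp)
    (hep : T.ep = sgv true) {n U S : ℤ} (hc : IsC A n U S (th A n))
    (hF : Fct A T n U S (fN xp true true ++ (fF false false ++ (fR 0 ++ [])))) : False := by
  cases sp <;> cases xp
  · obtain ⟨k, hk, hS'⟩ := jH h
    exact goR d hb hsg hep hc hF hk hS' (g := cmpm30r5_g) (by decide +kernel) cmpm30r5_k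
  · obtain ⟨k, hk, hS'⟩ := jH h
    exact goR d hb hsg hep hc hF hk hS' (g := cmpp30r5_g) (by decide +kernel) cmpp30r5_k
  · obtain ⟨k, hk, hS'⟩ := jH h
    exact goR d hb hsg hep hc hF hk hS' (g := cppm30r5_g) (by decide +kernel) cppm30r5_k
  · obtain ⟨k, hk, hS'⟩ := jH h
    exact goR d hb hsg hep hc hF hk hS' (g := cppp30r5_g) (by decide +kernel) cppp30r5_k

theorem cp301 {sp xp : Bool} (h : TL T) (d : ST A T (sgv xp)) (hb : Big A) (hsg : A.sg = sgv sp)
    (hep : T.ep = sgv true) {n U S : ℤ} (hc : IsC A n U S (th A n))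
    (hF : Fct A T n U S (fN xp true true ++ (fF false false ++ (fR 1 ++ [])))) : False := by
  cases sp <;> cases xp
  · obtain ⟨k, hk, hS'⟩ := jH h
    exact goR d hb hsg hep hc hF hk hS' (g := cmpm30r41_g) (by decide +kernel) cmpm30r41_k
  · obtain ⟨k, hk, hS'⟩ := jH h
    exact goR d hb hsg hep hc hF hk hS' (g := cmpp30r41_g) (by decide +kernel) cmpp30r41_k
  · obtain ⟨k, hk, hS'⟩ := jH h
    exact goR d hb hsg hep hc hF hk hS' (g := cppm30r41_g) (by decide +kernel) cppm30r41_k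
  · obtain ⟨k, hk, hS'⟩ := jH h
    exact goR d hb hsg hep hc hF hk hS' (g := cppp30r41_g) (by decide +kernel) cppp30r41_k

theorem cp302 {sp xp : Bool} (h : TL T) (d : ST A T (sgv xp)) (hb : Big A) (hsg : A.sg = sgv sp)
    (hep : T.ep = sgv true) {n U S : ℤ} (hc : IsC A n U S (th A n))
    (hF : Fct A T n U S (fN xp true true ++ (fF false false ++ (fR 2 ++ [])))) : False := by
  cases sp <;> cases xp
  · obtain ⟨k, hk, hS'⟩ := jHW h
    exact goR d hb hsg hep hc hF hk hS' (g := cmpm30r73wR01m1_g) (by decide +kernel) cmpm30r73wR01m1_k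
  · obtain ⟨k, hk, hS'⟩ := jH h
    exact goR d hb hsg hep hc hF hk hS' (g := cmpp30r73_g) (by decide +kernel) cmpp30r73_k
  · obtain ⟨k, hk, hS'⟩ := jH h
    exact goR d hb hsg hep hc hF hk hS' (g := cppm30r73wR01_g) (by decide +kernel) cppm30r73wR01_k
  · obtain ⟨k, hk, hS'⟩ := jH h
    exact goR d hb hsg hep hc hF hk hS' (g := cppp30r73_g) (by decide +kernel) cppp30r73_k

theorem cp303 {sp xp : Bool} (h : TL T) (d : ST A T (sgv xp)) (hb : Big A) (hsg : A.sg = sgv sp)
    (hep : T.ep = sgv true) {n U S : ℤ} (hc : IsC A n U S (th A n))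
    (hF : Fct A T n U S (fN xp true true ++ (fF false false ++ (fR 3 ++ [])))) : False := by
  cases sp <;> cases xp
  · obtain ⟨k, hk, hS'⟩ := jH h
    exact goR d hb hsg hep hc hF hk hS' (g := cmpm30r49_g) (by decide +kernel) cmpm30r49_k
  · obtain ⟨k, hk, hS'⟩ := jH h
    exact goR d hb hsg hep hc hF hk hS' (g := cmpp30r49_g) (by decide +kernel) cmpp30r49_k
  · obtain ⟨k, hk, hS'⟩ := jH h
    exact goR d hb hsg hep hc hF hk hS' (g := cppm30r49_g) (by decide +kernel) cppm30r49_k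
  · obtain ⟨k, hk, hS'⟩ := jH h
    exact goR d hb hsg hep hc hF hk hS' (g := cppp30r49_g) (by decide +kernel) cppp30r49_k

theorem cp304 {sp xp : Bool} (h : TL T) (d : ST A T (sgv xp)) (hb : Big A) (hsg : A.sg = sgv sp)
    (hep : T.ep = sgv true) {n U S : ℤ} (hc : IsC A n U S (th A n))
    (hF : Fct A T n U S (fN xp true true ++ (fF false false ++ (fR 4 ++ [])))) : False := by
  cases sp <;> cases xp
  · obtain ⟨k, hk, hS'⟩ := jH h
    exact goR d hb hsg hep hc hF hk hS' (g := cmpm30r81_g) (by decide +kernel) cmpm30r81_k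
  · obtain ⟨k, hk, hS'⟩ := jH h
    exact goR d hb hsg hep hc hF hk hS' (g := cmpp30r81_g) (by decide +kernel) cmpp30r81_k
  · obtain ⟨k, hk, hS'⟩ := jH h
    exact goR d hb hsg hep hc hF hk hS' (g := cppm30r81_g) (by decide +kernel) cppm30r81_k
  · obtain ⟨k, hk, hS'⟩ := jH h
    exact goR d hb hsg hep hc hF hk hS' (g := cppp30r81_g) (by decide +kernel) cppp30r81_k

theorem cp310 {sp xp : Bool} (h : TL T) (d : ST A T (sgv xp)) (hb : Big A) (hsg : A.sg = sgv sp)
    (hep : T.ep = sgv true) {n U S : ℤ} (hc : IsC A n U S (th A n))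
    (hF : Fct A T n U S (fN xp true true ++ (fF false true ++ (fR 0 ++ []))))
    (hS : Fct A T n U S [[0, 0, -1, 1, 0, 0, 0, -1, 0, 1]]) : False := by
  cases sp <;> cases xp
  · obtain ⟨k, hk, hS'⟩ := jq h
    exact goR d hb hsg hep hc (F := (fN false true true ++ (fF false true ++ (fR 0 ++ []))) ++ [[0, 0, -1, 1, 0, 0, 0, -1, 0, 1]])
      (hF.append hS) hk hS' (g := cmpm31r517xR1_g) (by decide +kernel) cmpm31r517xR1_k
  · obtain ⟨k, hk, hS'⟩ := jq h
    exact goR d hb hsg hep hc (F := (fN true true true ++ (fF false true ++ (fR 0 ++ []))) ++ [[0, 0, -1, 1, 0, 0, 0, -1, 0, 1]])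
      (hF.append hS) hk hS' (g := cmpp31r517xR1_g) (by decide +kernel) cmpp31r517xR1_k
  · obtain ⟨k, hk, hS'⟩ := jq h
    exact goR d hb hsg hep hc (F := (fN false true true ++ (fF false true ++ (fR 0 ++ []))) ++ [[0, 0, -1, 1, 0, 0, 0, -1, 0, 1]])
      (hF.append hS) hk hS' (g := cppm31r517xR1_g) (by decide +kernel) cppm31r517xR1_k
  · obtain ⟨k, hk, hS'⟩ := jq h
    exact goR d hb hsg hep hc (F := (fN true true true ++ (fF false true ++ (fR 0 ++ []))) ++ [[0, 0, -1, 1, 0, 0, 0, -1, 0, 1]])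
      (hF.append hS) hk hS' (g := cppp31r517xR1_g) (by decide +kernel) cppp31r517xR1_k

theorem cp311 {sp xp : Bool} (h : TL T) (d : ST A T (sgv xp)) (hb : Big A) (hsg : A.sg = sgv sp)
    (hep : T.ep = sgv true) {n U S : ℤ} (hc : IsC A n U S (th A n))
    (hF : Fct A T n U S (fN xp true true ++ (fF false true ++ (fR 1 ++ []))))
    (hS : Fct A T n U S [[0, 0, -1, 1, 0, 0, 0, -1, 0, 1]]) : False := by
  cases sp <;> cases xp
  · obtain ⟨k, hk, hS'⟩ := jq h
    exact goR d hb hsg hep hc (F := (fN false true true ++ (fF false true ++ (fR 1 ++ []))) ++ [[0, 0, -1, 1, 0, 0, 0, -1, 0, 1]])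
      (hF.append hS) hk hS' (g := cmpm31r553xR1_g) (by decide +kernel) cmpm31r553xR1_k
  · obtain ⟨k, hk, hS'⟩ := jH h
    exact goR d hb hsg hep hc hF hk hS' (g := cmpp31r41_g) (by decide +kernel) cmpp31r41_k
  · obtain ⟨k, hk, hS'⟩ := jq h
    exact goR d hb hsg hep hc (F := (fN false true true ++ (fF false true ++ (fR 1 ++ []))) ++ [[0, 0, -1, 1, 0, 0, 0, -1, 0, 1]])
      (hF.append hS) hk hS' (g := cppm31r553xR1_g) (by decide +kernel) cppm31r553xR1_k
  · obtain ⟨k, hk, hS'⟩ := jH h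
    exact goR d hb hsg hep hc hF hk hS' (g := cppp31r41_g) (by decide +kernel) cppp31r41_k

theorem cp312 {sp xp : Bool} (h : TL T) (d : ST A T (sgv xp)) (hb : Big A) (hsg : A.sg = sgv sp)
    (hep : T.ep = sgv true) {n U S : ℤ} (hc : IsC A n U S (th A n))
    (hF : Fct A T n U S (fN xp true true ++ (fF false true ++ (fR 2 ++ []))))
    (hS : Fct A T n U S [[0, 0, -1, 1, 0, 0, 0, -1, 0, 1]]) : False := by
  cases sp <;> cases xp
  · obtain ⟨k, hk, hS'⟩ := jH h
    exact goR d hb hsg hep hc hF hk hS' (g := cmpm31r73_g) (by decide +kernel) cmpm31r73_k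
  · obtain ⟨k, hk, hS'⟩ := jH h
    exact goR d hb hsg hep hc hF hk hS' (g := cmpp31r73_g) (by decide +kernel) cmpp31r73_k
  · obtain ⟨k, hk, hS'⟩ := jH h
    exact goR d hb hsg hep hc hF hk hS' (g := cppm31r73_g) (by decide +kernel) cppm31r73_k
  · obtain ⟨k, hk, hS'⟩ := jH h
    exact goR d hb hsg hep hc hF hk hS' (g := cppp31r73_g) (by decide +kernel) cppp31r73_k

end Pool.Agent.H98.HL
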