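import Pool.Agent.H98.HL.Small
import Pool.Agent.H98.HL.N.S0
import Pool.Agent.H98.HL.N.S1
import Pool.Agent.H98.HL.N.S2
import Pool.Agent.H98.HL.N.S3
import Pool.Agent.H98.HL.N.S4
import Pool.Agent.H98.HL.N.S5
import Pool.Agent.H98.HL.N.S6
import Pool.Agent.H98.HL.N.S7
import Pool.Agent.H98.HL.N.S8

/-!
# Tall rectangles: the cells `ep = -1`, `U < 0`, `th n < T`, `W < D < H` (generated)
-/

namespace Pool.Agent.H98.HL

open Pool.Agent.H78.RT
open Pool.Agent.H78.Tie
open Pool.Agent.H78.Tie.TAp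
open Pool.Agent.H81.AP (LF add smul dot dot_nil dot_nil' dot_cons dot_add dot_smul AllNn AllNe)
open Pool.Agent.H23.DT (AllNn.append)
open Pool.Agent.H78.SV (ST env rT rP sgv bT)
open Pool.Agent.H78.HL (TL OV FT Win)

variable {A : TAp} {T : A.Tie}

def fP1h : List LF := [-1, 0, 0, 0, 0, 0, 0, 0, -1, 0, 0, 1] :: fP1

def fP1l : List LF := [-1, 0, 0, 0, 0, 0, 0, 0, 1, 0, 0, -1] :: fP1

theorem fP1h_ok {n U S K U' : ℤ} (h0 : 0 < U') (h1 : U' < A.q) (h2 : th A n < th A K) (S'' : ℤ) :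
    AllNn (env A T [th A n, S, U, th A K, S'', U']) fP1h := by
  refine ⟨?_, fP1_ok h0 h1 S''⟩
  unfold env
  simp only [dot_cons, dot_nil]
  linarith [Int.add_one_le_iff.2 h2]

theorem fP1l_ok {n U S K U' : ℤ} (h0 : 0 < U') (h1 : U' < A.q) (h2 : th A K < th A n) (S'' : ℤ) :
    AllNn (env A T [th A n, S, U, th A K, S'', U']) fP1l := by
  refine ⟨?_, fP1_ok h0 h1 S''⟩
  unfold env
  simp only [dot_cons, dot_nil]
  linarith [Int.add_one_le_iff.2 h2]

theorem s1a {sp xp : Bool} (h : TL T) (d : ST A T (sgv xp)) (hb : Big A) (hsg : A.sg = sgv sp)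
    (hep : T.ep = sgv false) {n U S : ℤ} (hc : IsC A n U S (th A n))
    (hF : Fct A T n U S ((fN xp true false ++ (fF true true ++ (fR 5 ++ []))) ++ fa false)) : False := by
  cases sp <;> cases xp
  · obtain ⟨k, hk, hS'⟩ := jX h
    exact goR d hb hsg hep hc hF hk hS' (g := qcmmm11r17a_g) (by decide +kernel) qcmmm11r17a_k
  · obtain ⟨k, hk, hS'⟩ := jHW h
    exact goR d hb hsg hep hc hF hk hS' (g := qcmmp11r17a_g) (by decide +kernel) qcmmp11r17a_k
  · obtain ⟨k, hk, hS'⟩ := jX h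
    exact goR d hb hsg hep hc hF hk hS' (g := qcpmm11r17a_g) (by decide +kernel) qcpmm11r17a_k
  · obtain ⟨k, hk, hS'⟩ := jHW h
    exact goR d hb hsg hep hc hF hk hS' (g := qcpmp11r17a_g) (by decide +kernel) qcpmp11r17a_k

theorem s3a {sp xp : Bool} (h : TL T) (d : ST A T (sgv xp)) (hb : Big A) (hsg : A.sg = sgv sp)
    (hep : T.ep = sgv false) {n U S : ℤ} (hc : IsC A n U S (th A n))
    (hF : Fct A T n U S ((fN xp true true ++ (fF true true ++ (fR 5 ++ []))) ++ fa false)) : False := by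
  cases sp <;> cases xp
  · obtain ⟨k, hk, hS'⟩ := j2 h
    exact goR d hb hsg hep hc hF hk hS' (g := qcmmm31r17a_g) (by decide +kernel) qcmmm31r17a_k
  · obtain ⟨k, hk, hS'⟩ := jX h
    exact goR d hb hsg hep hc hF hk hS' (g := qcmmp31r17a_g) (by decide +kernel) qcmmp31r17a_k
  · obtain ⟨k, hk, hS'⟩ := j2 h
    exact goR d hb hsg hep hc hF hk hS' (g := qcpmm31r17a_g) (by decide +kernel) qcpmm31r17a_k
  · obtain ⟨k, hk, hS'⟩ := jX h
    exact goR d hb hsg hep hc hF hk hS' (g := qcpmp31r17a_g) (by decide +kernel) qcpmp31r17a_k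

theorem s1P1 {sp xp : Bool} (d : ST A T (sgv xp)) (hb : Big A) (hsg : A.sg = sgv sp)
    (hep : T.ep = sgv false) {n U S K U' S' : ℤ} (hc : IsC A n U S (th A n))
    (hF : Fct A T n U S ((fN xp true false ++ (fF true true ++ (fR 5 ++ []))) ++ fa true))
    (hK : IsC A K U' S' (th A K)) (h0 : 0 < U') (h1 : U' < A.q)
    (h2 : th A n < th A K ∨ th A K < th A n) : False := by
  have hr := qrange (A := A) (U' := U') (by linarith [A.q_pos']) h1
  cases sp <;> cases xp
  · exact goK d hb hsg hep hc hF hK hr.1 hr.2 (fun S'' => fP1_ok h0 h1 S'') (g := kcmmm11r17P1_g)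
      (by decide +kernel) kcmmm11r17P1_k
  · rcases h2 with h2 | h2
    · exact goK d hb hsg hep hc hF hK hr.1 hr.2 (fun S'' => fP1h_ok h0 h1 h2 S'') (g := kcmmp11r17P1h_g)
        (by decide +kernel) kcmmp11r17P1h_k
    · exact goK d hb hsg hep hc hF hK hr.1 hr.2 (fun S'' => fP1l_ok h0 h1 h2 S'') (g := kcmmp11r17P1l_g)
        (by decide +kernel) kcmmp11r17P1l_k
  · exact goK d hb hsg hep hc hF hK hr.1 hr.2 (fun S'' => fP1_ok h0 h1 S'') (g := kcpmm11r17P1_g)
      (by decide +kernel) kcpmm11r17P1_k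
  · exact goK d hb hsg hep hc hF hK hr.1 hr.2 (fun S'' => fP1_ok h0 h1 S'') (g := kcpmp11r17P1_g)
      (by decide +kernel) kcpmp11r17P1_k

theorem s3pP1 {sp : Bool} (d : ST A T (sgv true)) (hb : Big A) (hsg : A.sg = sgv sp)
    (hep : T.ep = sgv false) {n U S K U' S' : ℤ} (hc : IsC A n U S (th A n))
    (hF : Fct A T n U S ((fN true true true ++ (fF true true ++ (fR 5 ++ []))) ++ fa true))
    (hK : IsC A K U' S' (th A K)) (h0 : 0 < U') (h1 : U' < A.q)
    (h2 : th A n < th A K ∨ th A K < th A n) : False := by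
  have hr := qrange (A := A) (U' := U') (by linarith [A.q_pos']) h1
  cases sp
  · exact goK d hb hsg hep hc hF hK hr.1 hr.2 (fun S'' => fP1_ok h0 h1 S'') (g := kcmmp31r17P1_g)
      (by decide +kernel) kcmmp31r17P1_k
  · exact goK d hb hsg hep hc hF hK hr.1 hr.2 (fun S'' => fP1_ok h0 h1 S'') (g := kcpmp31r17P1_g)
      (by decide +kernel) kcpmp31r17P1_k

theorem s3mP1 {sp : Bool} (d : ST A T (sgv false)) (hb : Big A) (hsg : A.sg = sgv sp)
    (hep : T.ep = sgv false) {n U S K U' S' : ℤ} (hc : IsC A n U S (th A n))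
    (hF : Fct A T n U S (((fN false true true ++ (fF true true ++ (fR 5 ++ []))) ++ fa true) ++ [[0, 0, -1, 1, 0, 0, 0, -1, 0, 1]]))
    (hK : IsC A K U' S' (th A K)) (h0 : 0 < U') (h1 : U' < A.q)
    (h2 : th A n < th A K ∨ th A K < th A n) : False := by
  have hr := qrange (A := A) (U' := U') (by linarith [A.q_pos']) h1
  cases sp
  · exact goK d hb hsg hep hc hF hK hr.1 hr.2 (fun S'' => fP1_ok h0 h1 S'') (g := kcmmm31r17P1_g)
      (by decide +kernel) kcmmm31r17P1_k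
  · exact goK d hb hsg hep hc hF hK hr.1 hr.2 (fun S'' => fP1_ok h0 h1 S'') (g := kcpmm31r17P1_g)
      (by decide +kernel) kcpmm31r17P1_k

theorem s3LP1 {sp : Bool} (d : ST A T (sgv false)) (hb : Big A) (hsg : A.sg = sgv sp)
    (hep : T.ep = sgv false) {n U S K U' S' : ℤ} (hc : IsC A n U S (th A n))
    (hF : Fct A T n U S (((fN false true true ++ (fF true true ++ (fR 5 ++ []))) ++ fa true) ++ [[0, 0, 1, -1, 0, 0, 0, -1, 0, -1]]))
    (hK : IsC A K U' S' (th A K)) (h0 : 0 < U') (h1 : U' < A.q)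
    (h2 : th A n < th A K ∨ th A K < th A n) : False := by
  have hr := qrange (A := A) (U' := U') (by linarith [A.q_pos']) h1
  cases sp
  · exact goK d hb hsg hep hc hF hK hr.1 hr.2 (fun S'' => fP1_ok h0 h1 S'') (g := kcmmm31r17LP1_g)
      (by decide +kernel) kcmmm31r17LP1_k
  · exact goK d hb hsg hep hc hF hK hr.1 hr.2 (fun S'' => fP1_ok h0 h1 S'') (g := kcpmm31r17LP1_g)
      (by decide +kernel) kcpmm31r17LP1_k

theorem s1P2 {sp xp : Bool} (d : ST A T (sgv xp)) (hb : Big A) (hsg : A.sg = sgv sp)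
    (hep : T.ep = sgv false) {n U S K U' S' : ℤ} (hc : IsC A n U S (th A n))
    (hF : Fct A T n U S ((fN xp true false ++ (fF true true ++ (fR 5 ++ []))) ++ fa true))
    (hK : IsC A K U' S' (th A K)) (h0 : U' < 0) (h1 : -(A.q : ℤ) < U')
    (h2 : th A n < th A K) : False := by
  have hr := qrange (A := A) (U' := U') h1 (by linarith [A.q_pos'])
  cases sp <;> cases xp
  · exact goK d hb hsg hep hc hF hK hr.1 hr.2 (fun S'' => fP2_ok h0 h1 h2 S'') (g := kcmmm11r17P2_g)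
      (by decide +kernel) kcmmm11r17P2_k
  · exact goK d hb hsg hep hc hF hK hr.1 hr.2 (fun S'' => fP2_ok h0 h1 h2 S'') (g := kcmmp11r17P2_g)
      (by decide +kernel) kcmmp11r17P2_k
  · exact goK d hb hsg hep hc hF hK hr.1 hr.2 (fun S'' => fP2_ok h0 h1 h2 S'') (g := kcpmm11r17P2_g)
      (by decide +kernel) kcpmm11r17P2_k
  · exact goK d hb hsg hep hc hF hK hr.1 hr.2 (fun S'' => fP2_ok h0 h1 h2 S'') (g := kcpmp11r17P2_g)
      (by decide +kernel) kcpmp11r17P2_k

theorem s3pP2 {sp : Bool} (d : ST A T (sgv true)) (hb : Big A) (hsg : A.sg = sgv sp)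
    (hep : T.ep = sgv false) {n U S K U' S' : ℤ} (hc : IsC A n U S (th A n))
    (hF : Fct A T n U S ((fN true true true ++ (fF true true ++ (fR 5 ++ []))) ++ fa true))
    (hK : IsC A K U' S' (th A K)) (h0 : U' < 0) (h1 : -(A.q : ℤ) < U')
    (h2 : th A n < th A K) : False := by
  have hr := qrange (A := A) (U' := U') h1 (by linarith [A.q_pos'])
  cases sp
  · exact goK d hb hsg hep hc hF hK hr.1 hr.2 (fun S'' => fP2_ok h0 h1 h2 S'') (g := kcmmp31r17P2_g)
      (by decide +kernel) kcmmp31r17P2_k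
  · exact goK d hb hsg hep hc hF hK hr.1 hr.2 (fun S'' => fP2_ok h0 h1 h2 S'') (g := kcpmp31r17P2_g)
      (by decide +kernel) kcpmp31r17P2_k

theorem s3mP2 {sp : Bool} (d : ST A T (sgv false)) (hb : Big A) (hsg : A.sg = sgv sp)
    (hep : T.ep = sgv false) {n U S K U' S' : ℤ} (hc : IsC A n U S (th A n))
    (hF : Fct A T n U S (((fN false true true ++ (fF true true ++ (fR 5 ++ []))) ++ fa true) ++ [[0, 0, -1, 1, 0, 0, 0, -1, 0, 1]]))
    (hK : IsC A K U' S' (th A K)) (h0 : U' < 0) (h1 : -(A.q : ℤ) < U')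
    (h2 : th A n < th A K) : False := by
  have hr := qrange (A := A) (U' := U') h1 (by linarith [A.q_pos'])
  cases sp
  · exact goK d hb hsg hep hc hF hK hr.1 hr.2 (fun S'' => fP2_ok h0 h1 h2 S'') (g := kcmmm31r17P2_g)
      (by decide +kernel) kcmmm31r17P2_k
  · exact goK d hb hsg hep hc hF hK hr.1 hr.2 (fun S'' => fP2_ok h0 h1 h2 S'') (g := kcpmm31r17P2_g)
      (by decide +kernel) kcpmm31r17P2_k

theorem s3LP2 {sp : Bool} (d : ST A T (sgv false)) (hb : Big A) (hsg : A.sg = sgv sp)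
    (hep : T.ep = sgv false) {n U S K U' S' : ℤ} (hc : IsC A n U S (th A n))
    (hF : Fct A T n U S (((fN false true true ++ (fF true true ++ (fR 5 ++ []))) ++ fa true) ++ [[0, 0, 1, -1, 0, 0, 0, -1, 0, -1]]))
    (hK : IsC A K U' S' (th A K)) (h0 : U' < 0) (h1 : -(A.q : ℤ) < U')
    (h2 : th A n < th A K) : False := by
  have hr := qrange (A := A) (U' := U') h1 (by linarith [A.q_pos'])
  cases sp
  · exact goK d hb hsg hep hc hF hK hr.1 hr.2 (fun S'' => fP2_ok h0 h1 h2 S'') (g := kcmmm31r17LP2_g)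
      (by decide +kernel) kcmmm31r17LP2_k
  · exact goK d hb hsg hep hc hF hK hr.1 hr.2 (fun S'' => fP2_ok h0 h1 h2 S'') (g := kcpmm31r17LP2_g)
      (by decide +kernel) kcpmm31r17LP2_k

theorem s1P3 {sp xp : Bool} (d : ST A T (sgv xp)) (hb : Big A) (hsg : A.sg = sgv sp)
    (hep : T.ep = sgv false) {n U S K U' S' : ℤ} (hc : IsC A n U S (th A n))
    (hF : Fct A T n U S ((fN xp true false ++ (fF true true ++ (fR 5 ++ []))) ++ fa true))
    (hK : IsC A K U' S' (th A K)) (h0 : U' < 0) (h1 : -(A.q : ℤ) < U')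
    (h2 : th A K < th A n) : False := by
  have hr := qrange (A := A) (U' := U') h1 (by linarith [A.q_pos'])
  cases sp <;> cases xp
  · exact goK d hb hsg hep hc hF hK hr.1 hr.2 (fun S'' => fP3_ok h0 h1 h2 S'') (g := kcmmm11r17P3_g)
      (by decide +kernel) kcmmm11r17P3_k
  · exact goK d hb hsg hep hc hF hK hr.1 hr.2 (fun S'' => fP3_ok h0 h1 h2 S'') (g := kcmmp11r17P3_g)
      (by decide +kernel) kcmmp11r17P3_k
  · exact goK d hb hsg hep hc hF hK hr.1 hr.2 (fun S'' => fP3_ok h0 h1 h2 S'') (g := kcpmm11r17P3_g)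
      (by decide +kernel) kcpmm11r17P3_k
  · exact goK d hb hsg hep hc hF hK hr.1 hr.2 (fun S'' => fP3_ok h0 h1 h2 S'') (g := kcpmp11r17P3_g)
      (by decide +kernel) kcpmp11r17P3_k

theorem s3pP3 {sp : Bool} (d : ST A T (sgv true)) (hb : Big A) (hsg : A.sg = sgv sp)
    (hep : T.ep = sgv false) {n U S K U' S' : ℤ} (hc : IsC A n U S (th A n))
    (hF : Fct A T n U S ((fN true true true ++ (fF true true ++ (fR 5 ++ []))) ++ fa true))
    (hK : IsC A K U' S' (th A K)) (h0 : U' < 0) (h1 : -(A.q : ℤ) < U')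
    (h2 : th A K < th A n) : False := by
  have hr := qrange (A := A) (U' := U') h1 (by linarith [A.q_pos'])
  cases sp
  · exact goK d hb hsg hep hc hF hK hr.1 hr.2 (fun S'' => fP3_ok h0 h1 h2 S'') (g := kcmmp31r17P3_g)
      (by decide +kernel) kcmmp31r17P3_k
  · exact goK d hb hsg hep hc hF hK hr.1 hr.2 (fun S'' => fP3_ok h0 h1 h2 S'') (g := kcpmp31r17P3_g)
      (by decide +kernel) kcpmp31r17P3_k

theorem s3mP3 {sp : Bool} (d : ST A T (sgv false)) (hb : Big A) (hsg : A.sg = sgv sp)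
    (hep : T.ep = sgv false) {n U S K U' S' : ℤ} (hc : IsC A n U S (th A n))
    (hF : Fct A T n U S (((fN false true true ++ (fF true true ++ (fR 5 ++ []))) ++ fa true) ++ [[0, 0, -1, 1, 0, 0, 0, -1, 0, 1]]))
    (hK : IsC A K U' S' (th A K)) (h0 : U' < 0) (h1 : -(A.q : ℤ) < U')
    (h2 : th A K < th A n) : False := by
  have hr := qrange (A := A) (U' := U') h1 (by linarith [A.q_pos'])
  cases sp
  · exact goK d hb hsg hep hc hF hK hr.1 hr.2 (fun S'' => fP3_ok h0 h1 h2 S'') (g := kcmmm31r17P3_g)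
      (by decide +kernel) kcmmm31r17P3_k
  · exact goK d hb hsg hep hc hF hK hr.1 hr.2 (fun S'' => fP3_ok h0 h1 h2 S'') (g := kcpmm31r17P3_g)
      (by decide +kernel) kcpmm31r17P3_k

theorem s3LP3 {sp : Bool} (d : ST A T (sgv false)) (hb : Big A) (hsg : A.sg = sgv sp)
    (hep : T.ep = sgv false) {n U S K U' S' : ℤ} (hc : IsC A n U S (th A n))
    (hF : Fct A T n U S (((fN false true true ++ (fF true true ++ (fR 5 ++ []))) ++ fa true) ++ [[0, 0, 1, -1, 0, 0, 0, -1, 0, -1]]))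
    (hK : IsC A K U' S' (th A K)) (h0 : U' < 0) (h1 : -(A.q : ℤ) < U')
    (h2 : th A K < th A n) : False := by
  have hr := qrange (A := A) (U' := U') h1 (by linarith [A.q_pos'])
  cases sp
  · exact goK d hb hsg hep hc hF hK hr.1 hr.2 (fun S'' => fP3_ok h0 h1 h2 S'') (g := kcmmm31r17LP3_g)
      (by decide +kernel) kcmmm31r17LP3_k
  · exact goK d hb hsg hep hc hF hK hr.1 hr.2 (fun S'' => fP3_ok h0 h1 h2 S'') (g := kcpmm31r17LP3_g)
      (by decide +kernel) kcpmm31r17LP3_k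

end Pool.Agent.H98.HL
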